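import Pool.Agent.TH261.AB.Proj
import Pool.Agent.Helper498.NCR.Wiener

/-!
# Vectors with relatively compact orbits
-/

set_option autoImplicit false

open Finset Filter Topology

namespace Pool.Agent.P8H24.NU

open Pool.Agent.TH261.AB Pool.Agent.Helper498.NCR

variable {G : Type} [Group G]
variable {H : Type*} [NormedAddCommGroup H] [InnerProductSpace ℂ H]
variable (π : G →* (H ≃ₗᵢ[ℂ] H))

theorem pi_mul (a b : G) (x : H) : π (a * b) x = π a (π b x) := by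
  rw [map_mul]; rfl

theorem pi_one (x : H) : π 1 x = x := by rw [map_one]; rfl

theorem pi_inv_pi (a : G) (x : H) : π a⁻¹ (π a x) = x := by
  rw [← pi_mul, inv_mul_cancel, pi_one]

theorem pi_pi_inv (a : G) (x : H) : π a (π a⁻¹ x) = x := by
  rw [← pi_mul, mul_inv_cancel, pi_one]

theorem inner_pi_pi (a : G) (x y : H) : inner ℂ (π a x) (π a y) = inner ℂ x y :=
  LinearIsometryEquiv.inner_map_map _ _ _

theorem inner_pi_left (a : G) (x y : H) : inner ℂ (π a x) y = inner ℂ x (π a⁻¹ y) := by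
  rw [← inner_pi_pi π a⁻¹ (π a x) y, pi_inv_pi]

theorem inner_pi_right (a : G) (x y : H) : inner ℂ x (π a y) = inner ℂ (π a⁻¹ x) y := by
  rw [inner_pi_left, inv_inv]

/-- the set of the vectors with relatively compact orbits -/
def CptS (T : Subgroup G) : Submodule ℂ H where
  carrier := {ξ | ∀ ε : ℝ, 0 < ε → ∃ S : Finset H, ∀ t ∈ T, ∃ y ∈ S, ‖π t ξ - y‖ < ε}
  zero_mem' := by
    intro ε hε
    refine ⟨{0}, fun t _ => ⟨0, by simp, ?_⟩⟩
    simpa using hε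
  add_mem' := by
    classical
    intro a b ha hb ε hε
    obtain ⟨S, hS⟩ := ha (ε / 2) (by positivity)
    obtain ⟨S', hS'⟩ := hb (ε / 2) (by positivity)
    refine ⟨Finset.image₂ (fun x y => x + y) S S', fun t ht => ?_⟩
    obtain ⟨y, hy, h1⟩ := hS t ht
    obtain ⟨y', hy', h2⟩ := hS' t ht
    refine ⟨y + y', Finset.mem_image₂_of_mem hy hy', ?_⟩
    rw [map_add, add_sub_add_comm]
    exact (norm_add_le _ _).trans_lt (by linarith)
  smul_mem' := by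
    classical
    intro c a ha ε hε
    obtain ⟨S, hS⟩ := ha (ε / (‖c‖ + 1)) (by positivity)
    refine ⟨S.image fun y => c • y, fun t ht => ?_⟩
    obtain ⟨y, hy, h1⟩ := hS t ht
    refine ⟨c • y, Finset.mem_image_of_mem _ hy, ?_⟩
    rw [map_smul, ← smul_sub, norm_smul]
    rw [lt_div_iff₀ (by positivity)] at h1
    nlinarith [norm_nonneg c, norm_nonneg (π t a - y)]

theorem mem_CptS {T : Subgroup G} {ξ : H} : ξ ∈ CptS π T ↔
    ∀ ε : ℝ, 0 < ε → ∃ S : Finset H, ∀ t ∈ T, ∃ y ∈ S, ‖π t ξ - y‖ < ε := Iff.rfl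

theorem CptS_closed (T : Subgroup G) : IsClosed (CptS π T : Set H) := by
  rw [← isSeqClosed_iff_isClosed]
  intro u ξ hu hlim
  show ξ ∈ CptS π T
  rw [mem_CptS]
  intro ε hε
  obtain ⟨n, hn⟩ := (Metric.tendsto_atTop.1 hlim) (ε / 2) (by positivity)
  have h1 := hn n le_rfl
  obtain ⟨S, hS⟩ := (mem_CptS π).1 (hu n) (ε / 2) (by positivity)
  refine ⟨S, fun t ht => ?_⟩
  obtain ⟨y, hy, h2⟩ := hS t ht
  refine ⟨y, hy, ?_⟩
  have e : π t ξ - y = π t (ξ - u n) + (π t (u n) - y) := by rw [map_sub]; abel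
  rw [e]
  refine (norm_add_le _ _).trans_lt ?_
  rw [LinearIsometryEquiv.norm_map]
  rw [dist_comm, dist_eq_norm] at h1
  linarith

theorem CptS_mono {T T' : Subgroup G} (h : T ≤ T') : CptS π T' ≤ CptS π T := by
  intro ξ hξ
  rw [mem_CptS] at hξ ⊢
  intro ε hε
  obtain ⟨S, hS⟩ := hξ ε hε
  exact ⟨S, fun t ht => hS t (h ht)⟩

theorem CptS_conj {T T' : Subgroup G} {x : G} (h : ∀ t ∈ T', x⁻¹ * t * x ∈ T) {ξ : H}
    (hξ : ξ ∈ CptS π T) : π x ξ ∈ CptS π T' := by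
  classical
  rw [mem_CptS] at hξ ⊢
  intro ε hε
  obtain ⟨S, hS⟩ := hξ ε hε
  refine ⟨S.image (π x), fun t ht => ?_⟩
  obtain ⟨y, hy, h1⟩ := hS _ (h t ht)
  refine ⟨π x y, Finset.mem_image_of_mem _ hy, ?_⟩
  have e : π t (π x ξ) - π x y = π x (π (x⁻¹ * t * x) ξ - y) := by
    rw [map_sub, ← pi_mul, ← pi_mul]
    congr 2
    group
  rw [e, LinearIsometryEquiv.norm_map]
  exact h1

theorem CptS_norm {T : Subgroup G} {x : G} (h : x ∈ Subgroup.normalizer (T : Set G)) {ξ : H}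
    (hξ : ξ ∈ CptS π T) : π x ξ ∈ CptS π T :=
  CptS_conj π (fun t ht => (Subgroup.mem_normalizer_iff''.1 h t).1 ht) hξ

theorem CptS_bot : CptS π (⊥ : Subgroup G) = ⊤ := by
  rw [eq_top_iff]
  intro ξ _
  rw [mem_CptS]
  intro ε hε
  refine ⟨{ξ}, fun t ht => ⟨ξ, by simp, ?_⟩⟩
  rw [Subgroup.mem_bot] at ht
  rw [ht, pi_one, sub_self, norm_zero]
  exact hε

/-- a net of elements of the group -/
theorem CptS_net {T : Subgroup G} {ξ : H} (hξ : ξ ∈ CptS π T) (ε : ℝ) (hε : 0 < ε) :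
    ∃ S : Finset G, (∀ s ∈ S, s ∈ T) ∧ ∀ t ∈ T, ∃ s ∈ S, ‖π t ξ - π s ξ‖ < ε := by
  classical
  obtain ⟨S, hS⟩ := (mem_CptS π).1 hξ (ε / 2) (by positivity)
  have hc : ∀ y : H, ∃ s : G, s ∈ T ∧ ((∃ t ∈ T, ‖π t ξ - y‖ < ε / 2) → ‖π s ξ - y‖ < ε / 2) := by
    intro y
    by_cases hy : ∃ t ∈ T, ‖π t ξ - y‖ < ε / 2
    · obtain ⟨t, ht, h1⟩ := hy
      exact ⟨t, ht, fun _ => h1⟩
    · exact ⟨1, one_mem _, fun h => absurd h hy⟩
  choose f hf1 hf2 using hc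
  refine ⟨S.image f, ?_, fun t ht => ?_⟩
  · intro s hs
    obtain ⟨y, -, rfl⟩ := Finset.mem_image.1 hs
    exact hf1 y
  · obtain ⟨y, hy, h1⟩ := hS t ht
    refine ⟨f y, Finset.mem_image_of_mem _ hy, ?_⟩
    have h2 := hf2 y ⟨t, ht, h1⟩
    have e : π t ξ - π (f y) ξ = (π t ξ - y) - (π (f y) ξ - y) := by abel
    rw [e]
    exact (norm_sub_le _ _).trans_lt (by linarith)

/-- the group generated by `T` and an element of its normalizer -/
def Ext (T : Subgroup G) (u : G) (hu : u ∈ Subgroup.normalizer (T : Set G)) : Subgroup G where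
  carrier := {x | ∃ k : ℤ, ∃ t ∈ T, x = u ^ k * t}
  one_mem' := ⟨0, 1, one_mem _, by simp⟩
  mul_mem' := by
    rintro _ _ ⟨k, t, ht, rfl⟩ ⟨l, s, hs, rfl⟩
    refine ⟨k + l, (u ^ l)⁻¹ * t * u ^ l * s, ?_, ?_⟩
    · exact mul_mem ((Subgroup.mem_normalizer_iff''.1 (zpow_mem hu l) t).1 ht) hs
    · rw [zpow_add]; group
  inv_mem' := by
    rintro _ ⟨k, t, ht, rfl⟩
    refine ⟨-k, u ^ k * t⁻¹ * (u ^ k)⁻¹, ?_, ?_⟩
    · exact (Subgroup.mem_normalizer_iff.1 (zpow_mem hu k) t⁻¹).1 (inv_mem ht)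
    · rw [zpow_neg]; group

theorem le_Ext {T : Subgroup G} {u : G} (hu : u ∈ Subgroup.normalizer (T : Set G)) :
    T ≤ Ext T u hu := fun t ht => ⟨0, t, ht, by simp⟩

theorem mem_Ext {T : Subgroup G} {u : G} (hu : u ∈ Subgroup.normalizer (T : Set G)) :
    u ∈ Ext T u hu := ⟨1, 1, one_mem _, by simp⟩

theorem lt_Ext {T : Subgroup G} {u : G} (hu : u ∈ Subgroup.normalizer (T : Set G)) (h : u ∉ T) :
    T < Ext T u hu := by
  refine lt_of_le_of_ne (le_Ext hu) fun he => h ?_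
  rw [he]
  exact mem_Ext hu

theorem CptS_Ext_of_pow {T : Subgroup G} {u : G} (hu : u ∈ Subgroup.normalizer (T : Set G)) {n : ℕ}
    (hn : 1 ≤ n) (h : u ^ n ∈ T) {ξ : H} (hξ : ξ ∈ CptS π T) : ξ ∈ CptS π (Ext T u hu) := by
  classical
  rw [mem_CptS] at hξ ⊢
  intro ε hε
  obtain ⟨S, hS⟩ := hξ ε hε
  refine ⟨(Finset.range n).biUnion fun j => S.image (π (u ^ j)), ?_⟩
  rintro _ ⟨k, t, ht, rfl⟩
  have hn0 : (0 : ℤ) < n := by exact_mod_cast hn
  obtain ⟨y, hy, h1⟩ := hS ((u ^ n) ^ (k / n) * t) (mul_mem (zpow_mem h _) ht)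
  have h2 := Int.emod_nonneg k hn0.ne'
  have h3 := Int.emod_lt_of_pos k hn0
  obtain ⟨j, hj⟩ := Int.eq_ofNat_of_zero_le h2
  refine ⟨π (u ^ j) y, ?_, ?_⟩
  · rw [Finset.mem_biUnion]
    refine ⟨j, ?_, Finset.mem_image_of_mem _ hy⟩
    rw [Finset.mem_range]
    omega
  · have e : u ^ k * t = u ^ j * ((u ^ n) ^ (k / n) * t) := by
      rw [← mul_assoc]
      congr 1
      rw [← zpow_natCast, ← zpow_natCast, ← zpow_mul, ← zpow_add]
      congr 1
      have := Int.emod_add_mul_ediv k n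
      rw [hj] at this
      exact this.symm
    rw [e, pi_mul, ← map_sub, LinearIsometryEquiv.norm_map]
    exact h1

theorem CptS_Ext_of_eig {T : Subgroup G} {u : G} (hu : u ∈ Subgroup.normalizer (T : Set G)) {l : ℂ}
    (hl : ‖l‖ = 1) {ξ : H} (h : π u ξ = l • ξ) (hξ : ξ ∈ CptS π T) : ξ ∈ CptS π (Ext T u hu) := by
  classical
  rw [mem_CptS] at hξ ⊢
  intro ε hε
  obtain ⟨S, hS⟩ := hξ (ε / 2) (by positivity)
  obtain ⟨B, hB⟩ : ∃ B : ℝ, ∀ y ∈ S, ‖y‖ ≤ B := by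
    refine ⟨∑ y ∈ S, ‖y‖, fun y hy => Finset.single_le_sum (f := fun y => ‖y‖)
      (fun _ _ => norm_nonneg _) hy⟩
  have hB0 : 0 < |B| + 1 := by positivity
  obtain ⟨L, hLf, hL⟩ := Metric.totallyBounded_iff.1 (isCompact_sphere (0 : ℂ) 1).totallyBounded
    (ε / 2 / (|B| + 1)) (by positivity)
  have hpow : ∀ k : ℤ, ∃ c : ℂ, ‖c‖ = 1 ∧ π (u ^ k) ξ = c • ξ := by
    have hl0 : l ≠ 0 := by intro h0; rw [h0, norm_zero] at hl; exact zero_ne_one hl
    intro k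
    induction k using Int.induction_on with
    | zero => exact ⟨1, norm_one, by rw [zpow_zero, pi_one, one_smul]⟩
    | succ k ih =>
      obtain ⟨c, hc, h1⟩ := ih
      refine ⟨c * l, by rw [norm_mul, hc, hl, one_mul], ?_⟩
      rw [zpow_add_one, pi_mul, h, map_smul, h1, smul_smul, mul_comm]
    | pred k ih =>
      obtain ⟨c, hc, h1⟩ := ih
      refine ⟨c * l⁻¹, by rw [norm_mul, norm_inv, hc, hl, inv_one, one_mul], ?_⟩
      have h2 : π u⁻¹ ξ = l⁻¹ • ξ := by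
        have h3 := pi_inv_pi π u ξ
        rw [h, map_smul] at h3
        rw [eq_inv_smul_iff₀ hl0]
        exact h3
      rw [zpow_sub_one, pi_mul, h2, map_smul, h1, smul_smul, mul_comm]
  refine ⟨Finset.image₂ (fun c y => c • y) hLf.toFinset S, ?_⟩
  rintro _ ⟨k, t, ht, rfl⟩
  have ht' : u ^ k * t * (u ^ k)⁻¹ ∈ T := (Subgroup.mem_normalizer_iff.1 (zpow_mem hu k) t).1 ht
  obtain ⟨c, hc, h1⟩ := hpow k
  obtain ⟨y, hy, h2⟩ := hS _ ht'
  have hcs : c ∈ Metric.sphere (0 : ℂ) 1 := by rw [mem_sphere_zero_iff_norm, hc]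
  obtain ⟨d, hd, hcd⟩ := Set.mem_iUnion₂.1 (hL hcs)
  rw [Metric.mem_ball, dist_eq_norm] at hcd
  refine ⟨d • y, Finset.mem_image₂_of_mem (hLf.mem_toFinset.2 hd) hy, ?_⟩
  have e : π (u ^ k * t) ξ - d • y = c • (π (u ^ k * t * (u ^ k)⁻¹) ξ - y) + (c - d) • y := by
    have e1 : u ^ k * t = (u ^ k * t * (u ^ k)⁻¹) * u ^ k := by group
    rw [e1, pi_mul, h1, map_smul, smul_sub, sub_smul]
    simp only [inv_mul_cancel_right]
    abel
  rw [e]
  refine (norm_add_le _ _).trans_lt ?_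
  rw [norm_smul, hc, one_mul, norm_smul]
  have h3 : ‖c - d‖ * ‖y‖ ≤ ε / 2 := by
    have h4 : ‖y‖ ≤ |B| + 1 := (hB y hy).trans ((le_abs_self B).trans (by linarith))
    calc ‖c - d‖ * ‖y‖ ≤ (ε / 2 / (|B| + 1)) * (|B| + 1) := by
          gcongr
      _ = ε / 2 := by field_simp
  linarith

end Pool.Agent.P8H24.NU
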