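import Pool.Agent.P8H24.NU.Pure
import Pool.Agent.TH261.AB.Final

/-!
# The mean ergodic theorem for polynomial sequences on pure vectors
-/

set_option autoImplicit false

open Finset Filter Topology

namespace Pool.Agent.P8H24.NU

open Pool.Agent.Helper28.LCN
open Pool.Agent.TH261.AB (vav vav_norm tendsto_vav_iff vav_of_residues)

theorem tendsto_av_iff {a : ℕ → ℝ} (h0 : ∀ n, 0 ≤ a n) :
    Tendsto (av a) atTop (𝓝 0) ↔ Tendsto (vav fun n => (a n : ℂ)) atTop (𝓝 0) := by
  rw [tendsto_vav_iff]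
  refine tendsto_congr fun N => ?_
  rw [← Complex.ofReal_sum, Complex.norm_real, Real.norm_eq_abs,
    abs_of_nonneg (Finset.sum_nonneg fun n _ => h0 n), av, div_eq_inv_mul]

theorem av_of_residues {a : ℕ → ℝ} {C : ℝ} (h0 : ∀ n, 0 ≤ a n) (hC : ∀ n, a n ≤ C) {q : ℕ}
    (hq : 0 < q) (h : ∀ r < q, Tendsto (av fun n => a (q * n + r)) atTop (𝓝 0)) :
    Tendsto (av a) atTop (𝓝 0) := by
  rw [tendsto_av_iff h0]
  refine vav_of_residues (C := C) ((h0 0).trans (hC 0)) (fun n => ?_) hq fun r hr => ?_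
  · rw [Complex.norm_real, Real.norm_eq_abs, abs_of_nonneg (h0 n)]
    exact hC n
  · exact (tendsto_av_iff fun n => h0 _).1 (h r hr)

variable {G : Type} [Group G]

/-- the values along a progression -/
theorem transport {K : Subgroup G} {w : G} (hw : w ∈ Subgroup.normalizer (K : Set G)) {f : ℤ → G}
    {k : ℕ} (h : ∀ n : ℤ, f (n + k) * (f n)⁻¹ * w⁻¹ ∈ K) (n : ℤ) (m : ℕ) :
    ∃ x ∈ K, f (n + k * m) = x * w ^ m * f n := by
  induction m with
  | zero => exact ⟨1, one_mem _, by simp⟩
  | succ m ih =>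
    obtain ⟨x, hx, h1⟩ := ih
    have h2 := h (n + k * m)
    refine ⟨f (n + k * m + k) * (f (n + k * m))⁻¹ * w⁻¹ * (w * x * w⁻¹), mul_mem h2
      ((Subgroup.mem_normalizer_iff.1 hw x).1 hx), ?_⟩
    have e : n + (k : ℤ) * ((m + 1 : ℕ) : ℤ) = n + k * m + k := by push_cast; ring
    rw [e, pow_succ']
    have e2 : f (n + k * m + k) * (f (n + k * m))⁻¹ * w⁻¹ * (w * x * w⁻¹) * (w * w ^ m) * f n =
        f (n + k * m + k) * (f (n + k * m))⁻¹ * (x * w ^ m * f n) := by group
    rw [e2, ← h1]
    group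

variable {H : Type*} [NormedAddCommGroup H] [InnerProductSpace ℂ H] [CompleteSpace H]
variable (π : G →* (H ≃ₗᵢ[ℂ] H))

/-- a polynomial sequence which is not contained in a coset of `T` moves the vectors of type `T` to
zero, on average -/
theorem erg [Group.IsNilpotent G] {T : Subgroup G} {ξ : H} (hξ : ξ ∈ PS π T) (h0 : ξ ≠ 0) (D : ℕ) :
    ∀ {f : ℤ → G}, RR D f → (¬ ∀ n, f n * (f 0)⁻¹ ∈ T) → ∀ ζ : H,
      Tendsto (av fun n : ℕ => ‖inner ℂ ζ (π (f n)⁻¹ ξ)‖) atTop (𝓝 0) := by
  have hiso := PS_iso π hξ h0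
  induction D with
  | zero =>
    intro f hf hne
    exfalso
    apply hne
    intro n
    have h1 : f n = 1 := hf n
    have h2 : f 0 = 1 := hf 0
    rw [h1, h2, inv_one, mul_one]
    exact one_mem _
  | succ D ih =>
    intro f hf hne ζ
    have hX : ∀ (X : ℕ → ℤ) (n k : ℕ), inner ℂ (π (f (X n))⁻¹ ξ) (π (f (X (n + k)))⁻¹ ξ) =
        inner ℂ ξ (π (f (X (n + k)) * (f (X n))⁻¹)⁻¹ ξ) := by
      intro X n k
      rw [inner_pi_left, inv_inv, ← pi_mul]
      congr 3
      group
    by_cases hbad : ∃ k : ℕ, 1 ≤ k ∧ ∀ n, dd k f n * (dd k f 0)⁻¹ ∈ T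
    · obtain ⟨k, hk, hbad⟩ := hbad
      set w := dd (k : ℤ) f 0 with hw
      have hT : ∀ n : ℤ, f (n + k) * (f n)⁻¹ * w⁻¹ ∈ T := fun n => hbad n
      have hwT : w ∉ T := by
        intro hwT
        apply hne
        refine periodic_iso hiso ⟨D + 1, hf⟩ (r := k) hk fun l => ?_
        have := mul_mem (hT l) hwT
        rwa [inv_mul_cancel_right] at this
      refine av_of_residues (C := ‖ζ‖ * ‖ξ‖) (fun n => norm_nonneg _) (fun n => ?_) hk fun r _ => ?_
      · refine (norm_inner_le_norm _ _).trans ?_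
        rw [LinearIsometryEquiv.norm_map]
      by_cases hwN : w ∈ Subgroup.normalizer (T : Set G)
      · choose t ht h1 using fun m : ℕ => transport hwN hT (r : ℤ) m
        have h2 := av_cpt π ((mem_PS π).1 hξ).1 (w := w⁻¹)
          (fun s hs => wm_all π (PS_inv π hs hξ) (fun hc => hwT (by
            have := inv_mem hc; rwa [inv_inv] at this)))
          (fun m => (t m)⁻¹) (fun m => inv_mem (ht m)) (π (f r) ζ)
        refine h2.congr fun N => ?_
        congr 1
        funext m
        have e : (((k * m + r : ℕ) : ℤ)) = (r : ℤ) + k * m := by push_cast; ring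
        rw [e, h1 m, inner_pi_left]
        congr 2
        rw [← pi_mul, ← pi_mul]
        congr 2
        rw [inv_pow]
        group
      · obtain ⟨i, hi1, hi2⟩ : ∃ i, w ∉ Kc T (i + 1) ∧ w ∈ Kc T (i + 1 + 1) := by
          by_contra hcon
          push Not at hcon
          have h3 : ∀ i, w ∉ Kc T (i + 1) := by
            intro i
            induction i with
            | zero => exact hwN
            | succ i ihi => exact hcon i ihi
          obtain ⟨r, hr⟩ := exists_Kc_top T
          apply h3 r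
          have := Kc_le_succ T r
          rw [hr] at this
          exact this (Subgroup.mem_top _)
        refine av_vdc (fun m : ℕ => π (f ((k * m + r : ℕ) : ℤ))⁻¹ ξ) (C := ‖ξ‖)
          (fun n => (LinearIsometryEquiv.norm_map _ _).le) (fun j hj => ?_) ζ
        have h4 : ∀ n : ℕ, ‖inner ℂ (π (f ((k * n + r : ℕ) : ℤ))⁻¹ ξ)
            (π (f ((k * (n + j) + r : ℕ) : ℤ))⁻¹ ξ)‖ = 0 := by
          intro n
          rw [hX (fun n => ((k * n + r : ℕ) : ℤ)) n j]
          obtain ⟨x, hx, h5⟩ := transport (K := Kc T (i + 1)) (w := w) hi2 (f := f) (k := k)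
            (fun n => Kc_mono T (Nat.zero_le _) (hT n)) ((k * n + r : ℕ) : ℤ) j
          have e : (((k * (n + j) + r : ℕ) : ℤ)) = ((k * n + r : ℕ) : ℤ) + k * j := by
            push_cast; ring
          rw [e, h5, mul_inv_cancel_right]
          have hnot : x * w ^ j ∉ Subgroup.normalizer (T : Set G) := by
            intro hc
            have h6 : x * w ^ j ∈ Kc T (i + 1) := Kc_mono T (by omega : 1 ≤ i + 1) hc
            have h7 : w ^ j ∈ Kc T (i + 1) := by
              have := mul_mem (inv_mem hx) h6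
              rwa [inv_mul_cancel_left] at this
            exact hi1 (hiso.Kc (i + 1) w j hj h7)
          have h8 := orth_of_notMem π hξ hnot
          rw [inner_pi_left] at h8
          rw [h8, norm_zero]
        have : (av fun n : ℕ => ‖inner ℂ (π (f ((k * n + r : ℕ) : ℤ))⁻¹ ξ)
            (π (f ((k * (n + j) + r : ℕ) : ℤ))⁻¹ ξ)‖) = fun _ => 0 := by
          funext N
          rw [av, Finset.sum_congr rfl (fun n _ => h4 n), Finset.sum_const_zero, mul_zero]
        rw [this]
        exact tendsto_const_nhds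
    · push Not at hbad
      refine av_vdc (fun m : ℕ => π (f (m : ℤ))⁻¹ ξ) (C := ‖ξ‖)
        (fun n => (LinearIsometryEquiv.norm_map _ _).le) (fun k hk => ?_) ζ
      have h1 := ih (hf (k : ℤ)) (by
        obtain ⟨n, hn⟩ := hbad k hk
        exact fun h => hn (h n)) ξ
      refine h1.congr fun N => ?_
      congr 1
      funext n
      rw [hX (fun n => (n : ℤ)) n k]
      simp only [dd]
      push_cast
      rfl

end Pool.Agent.P8H24.NU
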