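import Pool.Agent.P8H24.NU.NS
import Pool.Agent.H905R2.Kad5.G3
import Pool.Agent.H275R2.Kad5.Univ
import Pool.Agent.H29R2.Kad5.Jord
import Pool.Agent.H204R2.Kad5.GNS

/-!
# Möbius disjointness of C*-systems generated by elements with polynomial orbits
-/

set_option autoImplicit false

open Finset Filter Topology

namespace Pool.Agent.P8H24.NU

open Pool.Agent.Helper188.NCM
open Pool.Agent.TH261.AB (vav vav_norm vav_le vav_of_residues IsPF Good term_le eig_iter
  iter_norm)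
open Pool.Agent.TH261.NP (Eig pf_dil vav_approx vav_add' vav_mul' top_of_multi)
open scoped InnerProductSpace

section

variable {W : Type} [CStarAlgebra W]

/-- the unitary operators of a representation -/
noncomputable def rU {K : Type} [NormedAddCommGroup K] [InnerProductSpace ℂ K] [CompleteSpace K]
    (π : W →⋆ₐ[ℂ] (K →L[ℂ] K)) : unitary W →* (K ≃ₗᵢ[ℂ] K) where
  toFun g := Unitary.linearIsometryEquiv ⟨π g, Unitary.map_mem π g.2⟩
  map_one' := by
    refine LinearIsometryEquiv.ext fun x => ?_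
    show π 1 x = x
    rw [map_one]
    rfl
  map_mul' g h := by
    refine LinearIsometryEquiv.ext fun x => ?_
    show π ((g : W) * h) x = π g (π h x)
    rw [map_mul]
    rfl

theorem rU_apply {K : Type} [NormedAddCommGroup K] [InnerProductSpace ℂ K] [CompleteSpace K]
    (π : W →⋆ₐ[ℂ] (K →L[ℂ] K)) (g : unitary W) (ξ : K) : rU π g ξ = π (g : W) ξ := rfl

/-- the homomorphism of the unitary groups -/
def uM {B : Type} [CStarAlgebra B] (ι : W →⋆ₐ[ℂ] B) : unitary W →* unitary B where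
  toFun g := ⟨ι g, Unitary.map_mem ι g.2⟩
  map_one' := Subtype.ext (map_one ι)
  map_mul' g h := Subtype.ext (map_mul ι (g : W) h)

theorem uM_iter (γ : W →⋆ₐ[ℂ] W) (n : ℕ) (g : unitary W) :
    ((((uM γ)^[n]) g : unitary W) : W) = (γ^[n]) (g : W) := by
  induction n generalizing g with
  | zero => rfl
  | succ n ih => rw [Function.iterate_succ_apply, Function.iterate_succ_apply, ih]; rfl

/-- the orbit of `x` is, along residue classes, a polynomial sequence in a nilpotent group of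
unitaries, with constant factors on both sides and polynomial phases -/
def OrbF (γ : W →⋆ₐ[ℂ] W) (x : W) : Prop :=
  ∃ q : ℕ, 0 < q ∧ ∀ r : ℕ, ∃ (G : Type) (_ : Group G) (_ : Group.IsNilpotent G)
    (θ : G →* unitary W) (p : ℤ → G) (f : ℕ → ℝ) (a b : W), IsPoly p ∧ IsPF f ∧
    ∀ n : ℕ, (γ^[q * n + r]) x = ee (f n) • (a * (θ (p n) : W) * b)

theorem OrbF.of_group {γ : W →⋆ₐ[ℂ] W} (g : unitary W) {m : ℕ} (hm : 0 < m) {k : ℕ}
    (hk : (dm (itm (uM γ) m))^[k] g = 1)
    (hv : Group.IsVirtuallyNilpotent (Subgroup.closure (Ds (itm (uM γ) m) g))) :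
    OrbF γ (g : W) := by
  obtain ⟨q, hq, h⟩ := orb_group (uM γ) g hm hk hv
  refine ⟨q, hq, fun r => ?_⟩
  obtain ⟨G, i1, i2, θ, p, a, hp, h1⟩ := h r
  refine ⟨G, i1, i2, θ, p, fun _ => 0, a, 1, hp, IsPF.const 0, fun n => ?_⟩
  rw [ee_zero, one_smul, mul_one, ← uM_iter, h1]
  rfl

theorem OrbF.mul {γ : W →⋆ₐ[ℂ] W} {x v w : W} (h : OrbF γ x) (hv : Eig γ v) (hw : Eig γ w) :
    OrbF γ (v * x * w) := by
  obtain ⟨l, hl, hv⟩ := hv
  obtain ⟨τ, rfl⟩ := exists_ee hl
  obtain ⟨l', hl', hw⟩ := hw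
  obtain ⟨τ', rfl⟩ := exists_ee hl'
  obtain ⟨q, hq, h⟩ := h
  refine ⟨q, hq, fun r => ?_⟩
  obtain ⟨G, i1, i2, θ, p, f, a, b, hp, hf, h1⟩ := h r
  refine ⟨G, i1, i2, θ, p, fun n => f n + ((q * n + r : ℕ) : ℝ) * (τ + τ'), v * a, b * w, hp,
    hf.add (IsPF.mul ?_ (IsPF.const _)), fun n => ?_⟩
  · exact pf_dil IsPF.id q r
  · rw [Pool.Agent.TH261.AB.iter_mul, Pool.Agent.TH261.AB.iter_mul, eig_iter hv, eig_iter hw, h1,
      smul_mul_smul_comm, smul_mul_smul_comm, ← ee_add, ← ee_add]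
    congr 1
    · congr 1; ring
    · simp only [mul_assoc]

theorem OrbF.map {γ : W →⋆ₐ[ℂ] W} {x : W} (h : OrbF γ x) {B : Type} [CStarAlgebra B]
    {β : B →⋆ₐ[ℂ] B} {ι : W →⋆ₐ[ℂ] B} (hι : ∀ a, β (ι a) = ι (γ a)) : OrbF β (ι x) := by
  have hn : ∀ n : ℕ, (β^[n]) (ι x) = ι ((γ^[n]) x) := by
    intro n
    induction n with
    | zero => rfl
    | succ n ih => rw [Function.iterate_succ_apply', ih, hι, Function.iterate_succ_apply']
  obtain ⟨q, hq, h⟩ := h
  refine ⟨q, hq, fun r => ?_⟩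
  obtain ⟨G, i1, i2, θ, p, f, a, b, hp, hf, h1⟩ := h r
  refine ⟨G, i1, i2, (uM ι).comp θ, p, f, ι a, ι b, hp, hf, fun n => ?_⟩
  rw [hn, h1, map_smul, map_mul, map_mul]
  rfl

theorem OrbF.good {γ : W →⋆ₐ[ℂ] W} {x : W} (h : OrbF γ x) : Good γ x := by
  obtain ⟨q, hq, h⟩ := h
  intro K _ _ _ π ξ
  refine vav_of_residues (by positivity) (term_le γ x π ξ) hq fun r hr => ?_
  obtain ⟨G, i1, i2, θ, p, f, a, b, hp, hf, h1⟩ := h r
  have h2 : MO (fun j => ((rU π).comp θ) (p j)) q r f (π b ξ) :=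
    MO_all ((rU π).comp θ) hp hq hr hf (π b ξ)
  have h3 := ((π a).continuous.tendsto 0).comp h2
  rw [map_zero] at h3
  refine h3.congr fun N => ?_
  rw [Function.comp_apply, vav, vav, map_smul, map_sum]
  congr 1
  refine Finset.sum_congr rfl fun n _ => ?_
  rw [map_smul, map_smul, h1, map_smul, map_mul, map_mul]
  rfl

theorem OrbF.coef {γ : W →⋆ₐ[ℂ] W} {x : W} (h : OrbF γ x) (ρ : W →L[ℂ] ℂ) :
    IsNQ fun n => ρ ((γ^[n]) x) := by
  obtain ⟨K, i0, i0', i0'', π, hπ⟩ := H759R2.Kad.prove7_rep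
    H759R2.Kad.prove7_jord
    (H759R2.Kad.prove7_univ H759R2.Kad.prove7_gns) W
  obtain ⟨ζ, ω, hρ, -⟩ := hπ ρ.toLinearMap ‖ρ‖ (norm_nonneg _) fun a => ρ.le_opNorm a
  have hρ' : ∀ a, ρ a = ⟪ζ, π a ω⟫_ℂ := hρ
  obtain ⟨q, hq, h⟩ := h
  refine ⟨q, hq, fun r => ?_⟩
  obtain ⟨G, i1, i2, θ, p, f, a, b, hp, hf, h1⟩ := h r
  refine ⟨K, i0, i0', i0'', G, i1, i2, (rU π).comp θ, p, f, π b ω, π (star a) ζ, hp, hf,
    fun n => ?_⟩
  show ρ ((γ^[q * n + r]) x) = ee (f n) * ⟪π (star a) ζ, π (θ (p n) : W) (π b ω)⟫_ℂ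
  rw [h1, map_smul, hρ', smul_eq_mul, map_star, ContinuousLinearMap.star_eq_adjoint,
    ContinuousLinearMap.adjoint_inner_left, map_mul, map_mul]
  rfl

/-- products of functionals, lists -/
def Multi (γ : W →⋆ₐ[ℂ] W) : Prop := ∀ L : List ((W →L[ℂ] ℂ) × W),
  Tendsto (vav fun n => mob n * (L.map fun p => p.1 ((γ^[n]) p.2)).prod) atTop (𝓝 0)

theorem fun_bdd (γ : W →⋆ₐ[ℂ] W) (ρ : W →L[ℂ] ℂ) (a : W) (n : ℕ) :
    ‖ρ ((γ^[n]) a)‖ ≤ ‖ρ‖ * ‖a‖ := by
  refine (ρ.le_opNorm _).trans ?_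
  have := iter_norm γ n a
  gcongr

theorem prod_bdd (γ : W →⋆ₐ[ℂ] W) (L : List ((W →L[ℂ] ℂ) × W)) : ∃ C : ℝ, 0 ≤ C ∧
    ∀ n, ‖(L.map fun p => p.1 ((γ^[n]) p.2)).prod‖ ≤ C := by
  induction L with
  | nil => exact ⟨1, zero_le_one, fun n => by simp⟩
  | cons p L ih =>
    obtain ⟨C, hC0, hC⟩ := ih
    refine ⟨‖p.1‖ * ‖p.2‖ * C, by positivity, fun n => ?_⟩
    rw [List.map_cons, List.prod_cons, norm_mul]
    have h2 := fun_bdd γ p.1 p.2 n
    have h3 := hC n
    gcongr

theorem multi_of {γ : W →⋆ₐ[ℂ] W} {S : Set W} (hS : ∀ x ∈ S, OrbF γ x)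
    (hd : (Submodule.span ℂ S).topologicalClosure = ⊤) (L : List ((W →L[ℂ] ℂ) × W)) :
    ∀ F : ℕ → ℂ, IsNQ F → Tendsto (vav fun n =>
      mob n * (F n * (L.map fun p => p.1 ((γ^[n]) p.2)).prod)) atTop (𝓝 0) := by
  induction L with
  | nil =>
    intro F hF
    refine hF.mob.congr fun N => ?_
    simp
  | cons p L ih =>
    intro F hF
    obtain ⟨ρ, a0⟩ := p
    obtain ⟨C, hC0, hC⟩ := prod_bdd γ L
    obtain ⟨C2, hC20, hC2⟩ := hF.bdd
    set E : ℕ → ℂ := fun n => mob n * (F n * (L.map fun p => p.1 ((γ^[n]) p.2)).prod) with hE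
    have hEb : ∀ n, ‖E n‖ ≤ C2 * C := by
      intro n
      rw [hE]
      simp only
      rw [norm_mul, norm_mul]
      have h1 := hC n
      have h2 := hC2 n
      calc _ ≤ 1 * (C2 * C) := by
            gcongr
            exact norm_mob_le _
        _ = _ := one_mul _
    have h1 : ∀ a ∈ S, Tendsto (vav fun n => E n * ρ ((γ^[n]) a)) atTop (𝓝 0) := by
      intro a ha
      refine (ih _ (hF.mul ((hS a ha).coef ρ))).congr fun N => ?_
      rw [vav, vav]
      congr 1
      refine Finset.sum_congr rfl fun n _ => ?_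
      rw [hE]
      simp only
      ring
    have h2 : ∀ a ∈ Submodule.span ℂ S, Tendsto (vav fun n => E n * ρ ((γ^[n]) a)) atTop (𝓝 0) := by
      intro a ha
      induction ha using Submodule.span_induction with
      | mem x hx => exact h1 x hx
      | zero =>
        have h0 : ∀ n, (γ^[n]) (0 : W) = 0 := fun n => by
          have := iter_smul γ n 0 0
          rwa [zero_smul, zero_smul] at this
        have : (vav fun n => E n * ρ ((γ^[n]) (0 : W))) = fun _ => 0 := by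
          funext N
          simp [vav, h0]
        rw [this]
        exact tendsto_const_nhds
      | add x y _ _ hx hy =>
        refine (vav_add' hx hy).congr fun N => ?_
        rw [vav, vav]
        congr 1
        exact Finset.sum_congr rfl fun n _ => by
          rw [Pool.Agent.TH261.AB.iter_add, map_add, mul_add]
      | smul c x _ hx =>
        refine (vav_mul' c hx).congr fun N => ?_
        rw [vav, vav]
        congr 1
        exact Finset.sum_congr rfl fun n _ => by rw [iter_smul, map_smul, smul_eq_mul]; ring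
    have h3 : a0 ∈ closure (Submodule.span ℂ S : Set W) := by
      have : a0 ∈ (Submodule.span ℂ S).topologicalClosure := by rw [hd]; trivial
      exact this
    have h4 : Tendsto (vav fun n => E n * ρ ((γ^[n]) a0)) atTop (𝓝 0) := by
      refine vav_approx fun ε hε => ?_
      obtain ⟨b, hb, hab⟩ := Metric.mem_closure_iff.1 h3 (ε / (C2 * C * ‖ρ‖ + 1)) (by positivity)
      refine ⟨_, fun n => ?_, h2 b hb⟩
      rw [← mul_sub, ← map_sub, ← Pool.Agent.TH261.AB.iter_sub, norm_mul]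
      have h2 := hEb n
      have h3 := fun_bdd γ ρ (a0 - b) n
      rw [dist_eq_norm] at hab
      calc _ ≤ (C2 * C) * (‖ρ‖ * ‖a0 - b‖) := by gcongr
        _ ≤ (C2 * C) * (‖ρ‖ * (ε / (C2 * C * ‖ρ‖ + 1))) := by gcongr
        _ = (C2 * C * ‖ρ‖) / (C2 * C * ‖ρ‖ + 1) * ε := by ring
        _ ≤ 1 * ε := by
            gcongr
            rw [div_le_one (by positivity)]
            linarith
        _ = ε := one_mul _
    refine h4.congr fun N => ?_
    rw [vav, vav]
    congr 1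
    refine Finset.sum_congr rfl fun n _ => ?_
    rw [hE, List.map_cons, List.prod_cons]
    simp only
    ring

theorem both_of {γ : W →⋆ₐ[ℂ] W} {S : Set W} (hS : ∀ x ∈ S, OrbF γ x)
    (hd : (Submodule.span ℂ S).topologicalClosure = ⊤) : (∀ x, Good γ x) ∧ Multi γ := by
  refine ⟨fun x => Good.of_span (fun y hy => (hS y hy).good) x (by rw [hd]; trivial), fun L => ?_⟩
  refine (multi_of hS hd L (fun _ => 1) (IsNQ.const 1)).congr fun N => ?_
  simp

/-- systems generated by an equivariant image and eigenvectors -/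
theorem both_ext {γ : W →⋆ₐ[ℂ] W} {S : Set W} (hS : ∀ x ∈ S, OrbF γ x)
    (hd : (Submodule.span ℂ S).topologicalClosure = ⊤) {B : Type} [CStarAlgebra B]
    {β : B →⋆ₐ[ℂ] B} {ι : W →⋆ₐ[ℂ] B} (hι : ∀ a, β (ι a) = ι (γ a))
    (hgen : (Submodule.span ℂ {x : B | ∃ y ∈ Set.range ι, ∃ v w, Eig β v ∧ Eig β w ∧
      x = v * y * w}).topologicalClosure = ⊤) : (∀ x, Good β x) ∧ Multi β := by
  set S' : Set B := {x | ∃ y ∈ S, ∃ v w, Eig β v ∧ Eig β w ∧ x = v * ι y * w} with hS'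
  have h1 : ∀ x ∈ S', OrbF β x := by
    rintro x ⟨y, hy, v, w, hv, hw, rfl⟩
    exact ((hS y hy).map hι).mul hv hw
  refine both_of h1 ?_
  rw [← top_le_iff, ← hgen]
  refine Submodule.topologicalClosure_minimal _ ?_ (Submodule.isClosed_topologicalClosure _)
  rw [Submodule.span_le]
  rintro x ⟨_, ⟨a, rfl⟩, v, w, hv, hw, rfl⟩
  have hcont : Continuous fun a : W => v * ι a * w :=
    (continuous_const.mul (AddMonoidHomClass.continuous_of_bound ι 1 fun x => by
      rw [one_mul]; exact NonUnitalStarAlgHom.norm_apply_le ι x)).mul continuous_const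
  have h2 : a ∈ closure (Submodule.span ℂ S : Set W) := by
    have : a ∈ (Submodule.span ℂ S).topologicalClosure := by rw [hd]; trivial
    exact this
  have h3 := image_closure_subset_closure_image hcont ⟨a, h2, rfl⟩
  refine closure_mono ?_ h3
  rintro _ ⟨c, hc, rfl⟩
  show v * ι c * w ∈ Submodule.span ℂ S'
  induction hc using Submodule.span_induction with
  | mem x hx => exact Submodule.subset_span ⟨x, hx, v, w, hv, hw, rfl⟩
  | zero => rw [map_zero, mul_zero, zero_mul]; exact zero_mem _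
  | add x y _ _ hx hy => rw [map_add, mul_add, add_mul]; exact add_mem hx hy
  | smul c x _ hx =>
    rw [map_smul, mul_smul_comm, smul_mul_assoc]; exact Submodule.smul_mem _ _ hx

end

end Pool.Agent.P8H24.NU
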