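import Pool.Agent.P8H24.NU.Fin
import Pool.Agent.H697R3.NSPD

/-!
# Projective representations of locally virtually nilpotent groups
-/

set_option autoImplicit false

open Finset Filter Topology

namespace Pool.Agent.P8H24.NU

open Pool.Agent.Helper188.NCM
open Pool.Agent.TH261.AB (vav IsPF)
open scoped InnerProductSpace ComplexOrder commutatorElement

section grp

variable {G : Type} [Group G]

theorem vn_surj {H : Type} [Group H] (f : G →* H) (h : Group.IsVirtuallyNilpotent G) :
    Group.IsVirtuallyNilpotent f.range := by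
  obtain ⟨N, hN, hN'⟩ := h
  have hs := f.rangeRestrict_surjective
  refine ⟨N.map f.rangeRestrict, ?_, ⟨?_⟩⟩
  · exact Group.nilpotent_of_surjective (f.rangeRestrict.subgroupMap N)
      (f.rangeRestrict.subgroupMap_surjective N)
  · intro h0
    have h1 := N.index_map_dvd hs
    rw [h0] at h1
    exact hN'.index_ne_zero (Nat.eq_zero_of_zero_dvd h1)

theorem vn_central {H : Type} [Group H] (f : G →* H) (hf : f.ker ≤ Subgroup.center G)
    (h : Group.IsVirtuallyNilpotent f.range) : Group.IsVirtuallyNilpotent G := by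
  obtain ⟨M, hM, hM'⟩ := h
  have hs := f.rangeRestrict_surjective
  refine ⟨M.comap f.rangeRestrict, ?_, ⟨?_⟩⟩
  · refine Subgroup.isNilpotent_of_ker_le_center (f.rangeRestrict.subgroupComap M) ?_
    intro x hx
    rw [MonoidHom.mem_ker] at hx
    have h1 : f (x : G) = 1 := by
      have := congrArg (fun z : M => ((z : f.range) : H)) hx
      exact this
    have h2 := hf (MonoidHom.mem_ker.2 h1)
    rw [Subgroup.mem_center_iff] at h2 ⊢
    intro y
    exact Subtype.ext (h2 y)
  · rw [Subgroup.index_comap_of_surjective _ hs]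
    exact hM'.index_ne_zero

/-- local virtual nilpotence -/
def LVN (G : Type) [Group G] : Prop := ∀ K : Subgroup G, K.FG → Group.IsVirtuallyNilpotent K

theorem ds_fg {τ : G →* G} {g : G} {k : ℕ} (hk : (dm τ)^[k] g = 1) :
    (Subgroup.closure (Ds τ g)).FG := by
  classical
  refine ⟨(Finset.range (k + 1)).image fun i => (dm τ)^[i + 1] g, ?_⟩
  refine le_antisymm ?_ ?_
  · rw [Subgroup.closure_le]
    intro x hx
    rw [Finset.mem_coe, Finset.mem_image] at hx
    obtain ⟨i, -, rfl⟩ := hx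
    exact Subgroup.subset_closure ⟨i, rfl⟩
  · rw [Subgroup.closure_le]
    rintro x ⟨i, rfl⟩
    by_cases hi : i < k + 1
    · exact Subgroup.subset_closure (Finset.mem_coe.2 (Finset.mem_image.2
        ⟨i, Finset.mem_range.2 hi, rfl⟩))
    · rw [dm_iter_one hk (by omega)]
      exact one_mem _

/-- nilpotent type -/
def NT (σ : G →* G) (g : G) : Prop := ∃ m : ℕ, 0 < m ∧ (∃ k : ℕ, (dm (itm σ m))^[k] g = 1) ∧
  Group.IsVirtuallyNilpotent (Subgroup.closure (Ds (itm σ m) g))

/-- quasi-unipotence -/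
def QU (σ : G →* G) : Prop := ∀ g : G, ∃ m : ℕ, 0 < m ∧ ∃ k : ℕ, (dm (itm σ m))^[k] g = 1

theorem nt_of_qu (hG : LVN G) {σ : G →* G} (hσ : QU σ) (g : G) : NT σ g := by
  obtain ⟨m, hm, k, hk⟩ := hσ g
  exact ⟨m, hm, ⟨k, hk⟩, hG _ (ds_fg hk)⟩

/-- inner automorphisms of locally virtually nilpotent groups are quasi-unipotent -/
theorem qu_inner (hG : LVN G) (h : G) : QU (MulAut.conj h).toMonoidHom := by
  classical
  intro g
  set K : Subgroup G := Subgroup.closure {g, h} with hK
  have hfg : K.FG := ⟨{g, h}, by rw [hK]; simp⟩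
  obtain ⟨N0, hN0, hN0'⟩ := hG K hfg
  set N : Subgroup K := N0.normalCore with hN
  have hNn : Group.IsNilpotent N := by
    refine Subgroup.isNilpotent_of_ker_le_center
      (Subgroup.inclusion (Subgroup.normalCore_le N0)) ?_
    rw [(MonoidHom.ker_eq_bot_iff _).2 (Subgroup.inclusion_injective _)]
    exact bot_le
  set m := N.index with hm
  have hm0 : 0 < m := Nat.pos_of_ne_zero Subgroup.FiniteIndex.index_ne_zero
  have hgK : g ∈ K := Subgroup.subset_closure (by simp)
  have hhK : h ∈ K := Subgroup.subset_closure (by simp)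
  have hyN : (⟨h, hhK⟩ : K) ^ m ∈ N := Subgroup.pow_index_mem N _
  set y : N := ⟨(⟨h, hhK⟩ : K) ^ m, hyN⟩ with hy
  obtain ⟨c, hc⟩ := Subgroup.nilpotent_iff_lowerCentralSeries.1 hNn
  -- iterates of the automorphism
  have hit : ∀ (n : ℕ) (x : G), itm (MulAut.conj h).toMonoidHom n x = h ^ n * x * (h ^ n)⁻¹ := by
    intro n
    induction n with
    | zero => intro x; rw [itm_apply]; simp
    | succ n ih =>
      intro x
      rw [add_comm, itm_add, ih, itm_apply, Function.iterate_one]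
      show h * (h ^ n * x * (h ^ n)⁻¹) * h⁻¹ = _
      rw [pow_add, pow_one]
      group
  set T : G →* G := itm (MulAut.conj h).toMonoidHom m with hT
  have hTx : ∀ x, dm T x = x⁻¹ * h ^ m * x * (h ^ m)⁻¹ := by
    intro x
    rw [dm, hT, hit]
    group
  -- the first difference is in `N`
  have h1 : ∃ z : N, dm T g = ((z : K) : G) := by
    refine ⟨⟨(⟨g, hgK⟩ : K)⁻¹ * (⟨h, hhK⟩ : K) ^ m * (⟨g, hgK⟩ : K) *
      ((⟨h, hhK⟩ : K) ^ m)⁻¹, ?_⟩, ?_⟩
    · have hNn : N.Normal := inferInstance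
      have h2 := hNn.conj_mem _ hyN (⟨g, hgK⟩ : K)⁻¹
      rw [inv_inv] at h2
      exact mul_mem h2 (inv_mem hyN)
    · rw [hTx]
      rfl
  have h2 : ∀ i : ℕ, ∃ z : N, z ∈ (⊤ : Subgroup N).lowerCentralSeries i ∧
      (dm T)^[i + 1] g = ((z : K) : G) := by
    intro i
    induction i with
    | zero =>
      obtain ⟨z, hz⟩ := h1
      exact ⟨z, by rw [Subgroup.lowerCentralSeries_zero]; trivial, hz⟩
    | succ i ih =>
      obtain ⟨z, hz, hz'⟩ := ih
      refine ⟨⁅z⁻¹, y⁆, ?_, ?_⟩
      · rw [Subgroup.lowerCentralSeries_succ]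
        exact Subgroup.commutator_mem_commutator (inv_mem hz) (Subgroup.mem_top y)
      · rw [Function.iterate_succ_apply', hz', hTx, commutatorElement_def, inv_inv]
        rfl
  refine ⟨m, hm0, c + 1, ?_⟩
  obtain ⟨z, hz, hz'⟩ := h2 c
  rw [hz', (by rw [hc] at hz; exact Subgroup.mem_bot.1 hz : z = 1)]
  rfl

end grp

section proj

variable {U : Type} [CStarAlgebra U]

/-- scalars of modulus one -/
def Sc (x y : U) : Prop := ∃ c : ℂ, ‖c‖ = 1 ∧ x = c • y

theorem Sc.symm {x y : U} (h : Sc x y) : Sc y x := by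
  obtain ⟨c, hc, rfl⟩ := h
  refine ⟨c⁻¹, by rw [norm_inv, hc, inv_one], ?_⟩
  rw [smul_smul, inv_mul_cancel₀ (by rintro rfl; simp at hc), one_smul]

theorem Sc.trans {x y z : U} (h : Sc x y) (h' : Sc y z) : Sc x z := by
  obtain ⟨c, hc, rfl⟩ := h
  obtain ⟨d, hd, rfl⟩ := h'
  exact ⟨c * d, by rw [norm_mul, hc, hd, one_mul], by rw [smul_smul]⟩

theorem Sc.mul {x y x' y' : U} (h : Sc x y) (h' : Sc x' y') : Sc (x * x') (y * y') := by
  obtain ⟨c, hc, rfl⟩ := h
  obtain ⟨d, hd, rfl⟩ := h'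
  exact ⟨c * d, by rw [norm_mul, hc, hd, one_mul], by rw [smul_mul_smul_comm]⟩

theorem Sc.adj {x y : U} (h : Sc x y) : Sc (star x) (star y) := by
  obtain ⟨c, hc, rfl⟩ := h
  exact ⟨star c, by rw [norm_star, hc], by rw [star_smul]⟩

theorem Sc.refl (x : U) : Sc x x := ⟨1, norm_one, by rw [one_smul]⟩

variable {G : Type} [Group G]

/-- the data of a projective representation -/
structure Proj (u : G → U) (σ : G →* G) (α : U →⋆ₐ[ℂ] U) : Prop where
  unit : ∀ g, u g ∈ unitary U
  mul : ∀ g h, Sc (u (g * h)) (u g * u h)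
  cov : ∀ g, Sc (α (u g)) (u (σ g))

variable {u : G → U} {σ : G →* G} {α : U →⋆ₐ[ℂ] U}

theorem Proj.one (h : Proj u σ α) : Sc (u 1) 1 := by
  have h1 := h.mul 1 1
  rw [mul_one] at h1
  have h2 := h1.mul (Sc.refl (Star.star (u 1)))
  rw [mul_assoc, Unitary.mul_star_self_of_mem (h.unit 1), mul_one] at h2
  exact h2.symm

theorem Proj.inv (h : Proj u σ α) (g : G) : Sc (u g⁻¹) (star (u g)) := by
  have h1 := h.mul g⁻¹ g
  rw [inv_mul_cancel] at h1
  have h2 := (h1.symm.trans h.one).mul (Sc.refl (Star.star (u g)))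
  rw [mul_assoc, Unitary.mul_star_self_of_mem (h.unit g), mul_one, one_mul] at h2
  exact h2

theorem Sc.map {x y : U} (h : Sc x y) : Sc (α x) (α y) := by
  obtain ⟨c, hc, rfl⟩ := h
  exact ⟨c, hc, by rw [map_smul]⟩

theorem Sc.iter {x y : U} (h : Sc x y) (n : ℕ) : Sc ((α^[n]) x) ((α^[n]) y) := by
  induction n with
  | zero => exact h
  | succ n ih =>
    rw [Function.iterate_succ_apply', Function.iterate_succ_apply']
    exact Sc.map ih

theorem Proj.iter (h : Proj u σ α) (n : ℕ) (g : G) : Sc ((α^[n]) (u g)) (u ((σ^[n]) g)) := by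
  induction n with
  | zero => exact Sc.refl _
  | succ n ih =>
    rw [Function.iterate_succ_apply', Function.iterate_succ_apply']
    exact (Sc.map ih).trans (h.cov _)

/-- the group of pairs -/
def PG (h : Proj u σ α) : Subgroup (G × unitary U) where
  carrier := {p | Sc (p.2 : U) (u p.1)}
  mul_mem' {a b} ha hb := ((Sc.mul ha hb).trans (h.mul _ _).symm : Sc ((a.2 : U) * b.2) (u (a.1 * b.1)))
  one_mem' := h.one.symm
  inv_mem' {a} ha := ((Sc.adj ha).trans (h.inv _).symm : Sc (star (a.2 : U)) (u (a.1)⁻¹))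

theorem PG.dm (h : Proj u σ α) (m : ℕ) {p : G × unitary U} (hp : p ∈ PG h) :
    dm ((itm σ m).prodMap (itm (uM α) m)) p ∈ PG h := by
  refine mul_mem (inv_mem hp) ?_
  show Sc (((((uM α)^[m]) p.2 : unitary U)) : U) (u ((σ^[m]) p.1))
  rw [uM_iter]
  exact (Sc.iter hp m).trans (h.iter m _)

theorem dm_prod {A B : Type} [Group A] [Group B] (s : A →* A) (t : B →* B) (i : ℕ) (p : A × B) :
    (dm (s.prodMap t))^[i] p = ((dm s)^[i] p.1, (dm t)^[i] p.2) := by
  induction i generalizing p with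
  | zero => rfl
  | succ i ih => rw [Function.iterate_succ_apply, ih]; rfl

theorem proj_vn (h : Proj u σ α) (g : G) {m k : ℕ}
    (hk : (dm (itm σ m))^[k] g = 1)
    (hv : Group.IsVirtuallyNilpotent (Subgroup.closure (Ds (itm σ m) g))) :
    (dm (itm (uM α) m))^[k + 1] (⟨u g, h.unit g⟩ : unitary U) = 1 ∧
    Group.IsVirtuallyNilpotent
      (Subgroup.closure (Ds (itm (uM α) m) (⟨u g, h.unit g⟩ : unitary U))) := by
  set x : unitary U := ⟨u g, h.unit g⟩ with hx
  set s := itm σ m with hs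
  set t := itm (uM α) m with ht
  have hp0 : ((g, x) : G × unitary U) ∈ PG h := Sc.refl _
  have hpi : ∀ i, (dm (s.prodMap t))^[i] (g, x) ∈ PG h := by
    intro i
    induction i with
    | zero => exact hp0
    | succ i ih => rw [Function.iterate_succ_apply']; exact PG.dm h m ih
  have hscal : ∀ p ∈ PG h, p.1 = 1 → ∃ c : ℂ, ‖c‖ = 1 ∧ (p.2 : U) = c • 1 := by
    intro p hp h1
    have h2 : Sc (p.2 : U) (u p.1) := hp
    rw [h1] at h2
    exact h2.trans h.one
  constructor
  · -- the last difference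
    have h1 := hpi k
    rw [dm_prod, hk] at h1
    obtain ⟨c, hc, h2⟩ := hscal _ h1 rfl
    have h2 : (((dm t)^[k] x : unitary U) : U) = c • 1 := h2
    rw [Function.iterate_succ_apply']
    refine Subtype.ext ?_
    show star (((dm t)^[k] x : unitary U) : U) * ((((uM α)^[m]) ((dm t)^[k] x) : unitary U) : U) = 1
    rw [uM_iter, h2, iter_smul, Pool.Agent.TH261.AB.iter_one, star_smul, smul_mul_smul_comm,
      star_one, one_mul]
    have hc' : star c * c = 1 := by
      rw [Complex.star_def, mul_comm, Complex.mul_conj, Complex.normSq_eq_norm_sq, hc]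
      simp
    rw [hc', one_smul]
  · set Q : Subgroup (G × unitary U) := Subgroup.closure (Ds (s.prodMap t) (g, x)) with hQ
    have hQP : Q ≤ PG h := by
      rw [hQ, Subgroup.closure_le]
      rintro _ ⟨i, rfl⟩
      exact hpi (i + 1)
    have e1 : Q.map (MonoidHom.fst G (unitary U)) = Subgroup.closure (Ds s g) := by
      rw [hQ, MonoidHom.map_closure]
      congr 1
      ext y
      constructor
      · rintro ⟨_, ⟨i, rfl⟩, rfl⟩
        exact ⟨i, by rw [dm_prod]; rfl⟩
      · rintro ⟨i, rfl⟩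
        exact ⟨_, ⟨i, rfl⟩, by rw [dm_prod]; rfl⟩
    have e2 : Q.map (MonoidHom.snd G (unitary U)) = Subgroup.closure (Ds t x) := by
      rw [hQ, MonoidHom.map_closure]
      congr 1
      ext y
      constructor
      · rintro ⟨_, ⟨i, rfl⟩, rfl⟩
        exact ⟨i, by rw [dm_prod]; rfl⟩
      · rintro ⟨i, rfl⟩
        exact ⟨_, ⟨i, rfl⟩, by rw [dm_prod]; rfl⟩
    have hK := hv
    set φ : Q →* G := (MonoidHom.fst G (unitary U)).comp Q.subtype with hφ
    have hφr : φ.range = Subgroup.closure (Ds s g) := by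
      rw [hφ, MonoidHom.range_comp, Subgroup.range_subtype, e1]
    have hQv : Group.IsVirtuallyNilpotent Q := by
      refine vn_central φ ?_ (by rw [hφr]; exact hK)
      intro p hp
      rw [MonoidHom.mem_ker] at hp
      obtain ⟨c, hc, h2⟩ := hscal (p : G × unitary U) (hQP p.2) hp
      rw [Subgroup.mem_center_iff]
      intro q
      refine Subtype.ext (Prod.ext ?_ (Subtype.ext ?_))
      · show (q : G × unitary U).1 * (p : G × unitary U).1 =
          (p : G × unitary U).1 * (q : G × unitary U).1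
        have h3 : (p : G × unitary U).1 = 1 := hp
        rw [h3, mul_one, one_mul]
      · show ((q : G × unitary U).2 : U) * ((p : G × unitary U).2 : U) =
          ((p : G × unitary U).2 : U) * ((q : G × unitary U).2 : U)
        rw [h2, mul_smul_comm, smul_mul_assoc, mul_one, one_mul]
    set ψ : Q →* unitary U := (MonoidHom.snd G (unitary U)).comp Q.subtype with hψ
    have hψr : ψ.range = Subgroup.closure (Ds t x) := by
      rw [hψ, MonoidHom.range_comp, Subgroup.range_subtype, e2]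
    have := vn_surj ψ hQv
    rwa [hψr] at this

/-- the orbits of the unitaries of a projective representation -/
theorem proj_orb (h : Proj u σ α) {g : G} (hg : NT σ g) : OrbF α (u g) := by
  obtain ⟨m, hm, ⟨k, hk⟩, hv⟩ := hg
  obtain ⟨h1, h2⟩ := proj_vn h g hk hv
  exact OrbF.of_group ⟨u g, h.unit g⟩ hm h1 h2

end proj

section pd

variable {G : Type} [Group G]

/-- positive definite functions along the orbits -/
theorem pd_nq {σ : G →* G} {φ : G → ℂ}
    (hφ : (Matrix.of fun g h : G => φ (g⁻¹ * h)).PosSemidef) {g : G} (hg : NT σ g) :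
    IsNQ fun n => φ ((σ^[n]) g) := by
  obtain ⟨m, hm, ⟨k, hk⟩, hv⟩ := hg
  obtain ⟨q, hq, h⟩ := orb_group σ g hm hk hv
  obtain ⟨H, i1, i2, i3, π, v, hv, hπ⟩ := H697R3.NS.gns_kernel (G := G) (X := G)
    (Matrix.of fun g h : G => φ (g⁻¹ * h)) hφ (fun g x y => by
      show φ ((g * x)⁻¹ * (g * y)) = φ (x⁻¹ * y)
      congr 1
      group)
  have hφv : ∀ g, φ g = ⟪v 1, (π g : H →L[ℂ] H) (v 1)⟫_ℂ := by
    intro g
    rw [hπ, hv]
    show φ g = φ (1⁻¹ * (g * 1))
    rw [inv_one, one_mul, mul_one]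
  refine ⟨q, hq, fun r => ?_⟩
  obtain ⟨G', i4, i5, θ, p, a, hp, h1⟩ := h r
  refine ⟨H, i1, i2, i3, G', i4, i5, ((Unitary.linearIsometryEquiv (𝕜 := ℂ)
    (H := H)).toMonoidHom.comp π).comp θ, p, fun _ => 0, v 1,
    ContinuousLinearMap.adjoint (π a : H →L[ℂ] H) (v 1), hp, IsPF.const 0, fun n => ?_⟩
  show φ ((σ^[q * n + r]) g) = ee 0 * ⟪ContinuousLinearMap.adjoint (π a : H →L[ℂ] H) (v 1),
    (π (θ (p n)) : H →L[ℂ] H) (v 1)⟫_ℂ
  rw [ee_zero, one_mul, h1, hφv, ContinuousLinearMap.adjoint_inner_left, map_mul]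
  rfl

theorem IsNQ.prod {ι : Type} (s : Finset ι) {F : ι → ℕ → ℂ} (h : ∀ i ∈ s, IsNQ (F i)) :
    IsNQ fun n => ∏ i ∈ s, F i n := by
  classical
  induction s using Finset.induction_on with
  | empty =>
    simp only [Finset.prod_empty]
    exact IsNQ.const 1
  | insert a s ha ih =>
    simp only [Finset.prod_insert ha]
    exact (h a (Finset.mem_insert_self _ _)).mul
      (ih fun i hi => h i (Finset.mem_insert_of_mem hi))

end pd

end Pool.Agent.P8H24.NU
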