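import Pool.Agent.P8H24.NU.Poly

/-!
# Taylor expansions of polynomial sequences in nilpotent groups
-/

set_option autoImplicit false

namespace Pool.Agent.P8H24.NU

open Pool.Agent.Helper28.LCN

variable {G : Type} [Group G]

theorem Fi_antitone (D : ℕ) {i j : ℕ} (h : i ≤ j) : Fi G D j ≤ Fi G D i := by
  induction h with
  | refl => exact le_rfl
  | step _ ih => exact (Fi_anti D _).trans ih

theorem PolyF.weak {D : ℕ} {i j : ℕ} (h : i ≤ j) {f : ℤ → G} (hf : PolyF (Fi G D) j f) :
    PolyF (Fi G D) i f := fun m => Q_le (Fi G D) (Fi_anti D) m h f (hf m)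

/-- products of the values -/
theorem PolyF.of_dd {D : ℕ} (hD : 0 < D) {j : ℕ} {F h : ℤ → G} (hF : ∀ n, F (n + 1) = h n * F n)
    (hh : PolyF (Fi G D) (j + 1) h) (h0 : F 0 ∈ Fi G D j) : PolyF (Fi G D) j F := by
  have hnat : ∀ s : ℕ, PolyF (Fi G D) (j + 1) (dd s F) := by
    intro s
    induction s with
    | zero =>
      intro m
      refine Q_of_one _ _ _ fun n => ?_
      simp [dd]
    | succ s ih =>
      have h2 := (hh.shift (s : ℤ)).mul hD ih
      have e : dd ((s + 1 : ℕ) : ℤ) F = fun n => h (n + s) * dd (s : ℤ) F n := by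
        funext n
        simp only [dd]
        push_cast
        rw [← add_assoc, hF]
        group
      rw [e]
      exact h2
  have hall : ∀ s : ℤ, PolyF (Fi G D) (j + 1) (dd s F) := by
    intro s
    rcases le_total 0 s with hs | hs
    · obtain ⟨k, rfl⟩ := Int.eq_ofNat_of_zero_le hs
      exact hnat k
    · obtain ⟨k, hk⟩ := Int.eq_ofNat_of_zero_le (neg_nonneg.2 hs)
      have hs' : s = -(k : ℤ) := by omega
      subst hs'
      have h2 := ((hnat k).shift (-(k : ℤ))).inv hD
      have e : dd (-(k : ℤ)) F = fun n => (dd (k : ℤ) F (n + -(k : ℤ)))⁻¹ := by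
        funext n
        simp only [dd]
        rw [show n + -(k : ℤ) + (k : ℤ) = n by ring]
        group
      rw [e]
      exact h2
  have hval : ∀ n, F n ∈ Fi G D j := by
    intro n
    have h1 : dd n F 0 ∈ Fi G D j := Fi_anti D j (Q_val _ 0 (j + 1) _ (hall n 0) 0)
    have e : F n = dd n F 0 * F 0 := by
      simp only [dd]
      rw [zero_add]
      group
    rw [e]
    exact mul_mem h1 h0
  intro m
  cases m with
  | zero => exact hval
  | succ m => exact ⟨hval, fun s => hall s m⟩

theorem PolyF.const {D j : ℕ} {g : G} (hg : g ∈ Fi G D j) : PolyF (Fi G D) j (fun _ : ℤ => g) := by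
  intro m
  cases m with
  | zero => exact fun _ => hg
  | succ m => exact ⟨fun _ => hg, fun s => Q_of_one _ _ _ fun n => by simp [dd]⟩

theorem PolyF.choose {D : ℕ} (hD : 0 < D) {m : ℕ} {g : G} (hg : g ∈ Fi G D m) (i : ℕ) (hi : i ≤ m) :
    PolyF (Fi G D) (m - i) (fun n : ℤ => g ^ (Ring.choose n i : ℤ)) := by
  induction i with
  | zero =>
    have := PolyF.const (D := D) hg
    simpa using this
  | succ i ih =>
    have h1 := ih (by omega)
    refine PolyF.of_dd hD (h := fun n : ℤ => g ^ (Ring.choose n i : ℤ)) (fun n => ?_) ?_ ?_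
    · rw [← zpow_add]
      congr 1
      exact Ring.choose_succ_succ n i
    · rwa [show m - (i + 1) + 1 = m - i by omega]
    · rw [Ring.choose_zero_succ, zpow_zero]
      exact one_mem _

/-- the partial products -/
def Sp (t : ℕ → G) : ℕ → ℤ → G
  | 0, _ => 1
  | i + 1, n => Sp t i n * t i ^ (Ring.choose n i : ℤ)

theorem Sp_congr {t t' : ℕ → G} (i : ℕ) (h : ∀ j < i, t j = t' j) (n : ℤ) : Sp t i n = Sp t' i n := by
  induction i with
  | zero => rfl
  | succ i ih =>
    rw [Sp, Sp, ih fun j hj => h j (by omega), h i (by omega)]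

theorem dd_iter_zero (i : ℕ) : ∀ (R : ℤ → G), (∀ j : ℕ, j < i → R j = 1) →
    ((dd 1)^[i]) R 0 = R i := by
  induction i with
  | zero => intro R _; rfl
  | succ i ih =>
    intro R hR
    rw [Function.iterate_succ_apply, ih (dd 1 R) (by
      intro j hj
      have e1 := hR j (by omega)
      have e2 := hR (j + 1) (by omega)
      push_cast at e2
      simp only [dd]
      rw [e1, e2]
      simp)]
    have e1 := hR i (by omega)
    simp only [dd]
    rw [e1]
    push_cast
    simp

theorem Q_iter (Φ : ℕ → Subgroup G) (i : ℕ) : ∀ (j : ℕ) (R : ℤ → G), Q Φ i j R →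
    ((dd 1)^[i]) R 0 ∈ Φ (j + i) := by
  induction i with
  | zero => intro j R h; exact h 0
  | succ i ih =>
    intro j R h
    rw [Function.iterate_succ_apply]
    have := ih (j + 1) _ (h.2 1)
    rwa [show j + 1 + i = j + (i + 1) by omega] at this

/-- Taylor expansion -/
theorem taylor [Group.IsNilpotent G] {f : ℤ → G} (hf : IsPoly f) :
    ∃ (t : ℕ → G) (M : ℕ), ∀ n, f n = Sp t M n := by
  obtain ⟨D, hD, h1, -⟩ := hf.exists_common hf
  obtain ⟨M, hM⟩ := Fi_bot (G := G) D hD
  have key : ∀ i : ℕ, ∃ t : ℕ → G, PolyF (Fi G D) 0 (fun n => (Sp t i n)⁻¹ * f n) ∧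
      ∀ j : ℕ, j < i → (Sp t i j)⁻¹ * f j = 1 := by
    intro i
    induction i with
    | zero =>
      refine ⟨fun _ => 1, ?_, fun j hj => absurd hj (Nat.not_lt_zero _)⟩
      have e : (fun n => (Sp (fun _ => (1 : G)) 0 n)⁻¹ * f n) = f := by
        funext n
        simp [Sp]
      rw [e]
      exact h1
    | succ i ih =>
      obtain ⟨t, ht1, ht2⟩ := ih
      set R : ℤ → G := fun n => (Sp t i n)⁻¹ * f n with hR
      have hg : R i ∈ Fi G D i := by
        rw [← dd_iter_zero i R (fun j hj => ht2 j hj)]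
        have := Q_iter (Fi G D) i 0 R (ht1 i)
        rwa [zero_add] at this
      set t' : ℕ → G := fun j => if j = i then R i else t j with ht'
      have e1 : ∀ n, Sp t' i n = Sp t i n := fun n => Sp_congr i (fun j hj => by
        rw [ht']; simp only; rw [if_neg (by omega)]) n
      have e2 : t' i = R i := by rw [ht']; simp
      have e3 : ∀ n, (Sp t' (i + 1) n)⁻¹ * f n = (R i ^ (Ring.choose n i : ℤ))⁻¹ * R n := by
        intro n
        rw [Sp, e1, e2, hR]
        group
      refine ⟨t', ?_, fun j hj => ?_⟩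
      · have h3 := PolyF.choose hD hg i le_rfl
        rw [Nat.sub_self] at h3
        have h4 := (h3.inv hD).mul hD ht1
        have e4 : (fun n => (Sp t' (i + 1) n)⁻¹ * f n) =
            fun n => (R i ^ (Ring.choose n i : ℤ))⁻¹ * R n := funext e3
        rw [e4]
        exact h4
      · rw [e3]
        rcases Nat.lt_succ_iff_lt_or_eq.1 hj with h | h
        · have h5 : R j = 1 := ht2 j h
          rw [h5, Ring.choose_natCast, Nat.choose_eq_zero_of_lt h]
          simp
        · subst h
          rw [Ring.choose_natCast, Nat.choose_self]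
          simp
  obtain ⟨t, ht1, ht2⟩ := key M
  refine ⟨t, M, fun n => ?_⟩
  have h2 : RR M (fun n => (Sp t M n)⁻¹ * f n) := RR_of_Q (Fi G D) M 0 (hM _ (by omega)) (ht1 M)
  have h3 := zeros_init M _ h2 ht2 n
  exact (inv_mul_eq_one.1 h3).symm

end Pool.Agent.P8H24.NU
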