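import Pool.Agent.P8H24.NU.Erg
import Pool.Agent.P8H24.NU.Tay
import Pool.Agent.TH261.AB.Gen

/-!
# Möbius orthogonality of polynomial sequences in nilpotent groups of unitary operators
-/

set_option autoImplicit false

open Finset Filter Topology

namespace Pool.Agent.P8H24.NU

open Pool.Agent.Helper28.LCN Pool.Agent.Helper188.NCM
open Pool.Agent.TH261.AB (vav vav_norm vav_le IsPF kataiAP mob_poly)
open Pool.Agent.H767R2 (cav tendsto_cav_iff)

section mo

variable {H : Type*} [NormedAddCommGroup H] [InnerProductSpace ℂ H]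

/-- Möbius orthogonality of a sequence of vectors, along a residue class -/
def MO (A : ℕ → (H ≃ₗᵢ[ℂ] H)) (m r : ℕ) (f : ℕ → ℝ) (ξ : H) : Prop :=
  Tendsto (vav fun j => mob (m * j + r) • (ee (f j) • A j ξ)) atTop (𝓝 0)

variable {A : ℕ → (H ≃ₗᵢ[ℂ] H)} {m r : ℕ} {f : ℕ → ℝ}

theorem MO.zero : MO A m r f 0 := by
  have : (vav fun j => mob (m * j + r) • (ee (f j) • A j (0 : H))) = fun _ => 0 := by
    funext N
    simp [vav]
  rw [MO, this]
  exact tendsto_const_nhds

theorem MO.add {ξ η : H} (h : MO A m r f ξ) (h' : MO A m r f η) : MO A m r f (ξ + η) := by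
  have h1 := Tendsto.add h h'
  rw [add_zero] at h1
  refine h1.congr fun N => ?_
  rw [vav, vav, vav, ← smul_add, ← Finset.sum_add_distrib]
  congr 1
  refine Finset.sum_congr rfl fun j _ => ?_
  rw [map_add, smul_add, smul_add]

theorem MO.smul {ξ : H} (c : ℂ) (h : MO A m r f ξ) : MO A m r f (c • ξ) := by
  have h1 := Tendsto.const_smul h c
  rw [smul_zero] at h1
  refine h1.congr fun N => ?_
  rw [vav, vav, smul_comm, Finset.smul_sum]
  congr 1
  refine Finset.sum_congr rfl fun j _ => ?_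
  rw [map_smul, smul_comm c, smul_comm c]

theorem MO_term (A : ℕ → (H ≃ₗᵢ[ℂ] H)) (m r : ℕ) (f : ℕ → ℝ) (ξ : H) (j : ℕ) :
    ‖mob (m * j + r) • (ee (f j) • A j ξ)‖ ≤ ‖ξ‖ := by
  rw [norm_smul, norm_smul, norm_ee, one_mul, LinearIsometryEquiv.norm_map]
  calc _ ≤ 1 * ‖ξ‖ := by gcongr; exact norm_mob_le _
    _ = _ := one_mul _

theorem MO.closure {S : Submodule ℂ H} (hS : ∀ ξ ∈ S, MO A m r f ξ) :
    ∀ ξ ∈ S.topologicalClosure, MO A m r f ξ := by
  intro ξ hξ
  rw [MO, Metric.tendsto_atTop]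
  intro ε hε
  have h1 : ξ ∈ _root_.closure (S : Set H) := hξ
  obtain ⟨η, hη, hd⟩ := Metric.mem_closure_iff.1 h1 (ε / 2) (by positivity)
  obtain ⟨N0, hN0⟩ := Metric.tendsto_atTop.1 (hS η hη) (ε / 2) (by positivity)
  refine ⟨N0, fun N hN => ?_⟩
  have h2 := hN0 N hN
  rw [dist_zero_right] at h2 ⊢
  have e : vav (fun j => mob (m * j + r) • (ee (f j) • A j ξ)) N =
      vav (fun j => mob (m * j + r) • (ee (f j) • A j (ξ - η))) N +
      vav (fun j => mob (m * j + r) • (ee (f j) • A j η)) N := by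
    rw [vav, vav, vav, ← smul_add, ← Finset.sum_add_distrib]
    congr 1
    refine Finset.sum_congr rfl fun j _ => ?_
    rw [map_sub, ← smul_add, ← smul_add, sub_add_cancel]
  rw [e]
  have h3 := vav_le (norm_nonneg (ξ - η)) (MO_term A m r f (ξ - η)) N
  rw [dist_eq_norm] at hd
  have h4 := norm_add_le (vav (fun j => mob (m * j + r) • (ee (f j) • A j (ξ - η))) N)
    (vav (fun j => mob (m * j + r) • (ee (f j) • A j η)) N)
  linarith

theorem MO.span {S : Set H} (hS : ∀ ξ ∈ S, MO A m r f ξ) :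
    ∀ ξ ∈ (Submodule.span ℂ S).topologicalClosure, MO A m r f ξ := by
  refine MO.closure fun ξ hξ => ?_
  induction hξ using Submodule.span_induction with
  | mem x hx => exact hS x hx
  | zero => exact MO.zero
  | add x y _ _ hx hy => exact hx.add hy
  | smul c x _ hx => exact hx.smul c

theorem MO.iSup {ι : Type*} {S : ι → Submodule ℂ H} (hS : ∀ i, ∀ ξ ∈ S i, MO A m r f ξ) :
    ∀ ξ ∈ (⨆ i, S i).topologicalClosure, MO A m r f ξ := by
  refine MO.closure fun ξ hξ => ?_
  exact Submodule.iSup_induction S (motive := fun x => MO A m r f x) hξ (fun i x hx => hS i x hx)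
    MO.zero (fun x y hx hy => hx.add hy)

/-- a constant factor on the left -/
theorem MO.left {ξ : H} (L : H ≃ₗᵢ[ℂ] H) (h : MO A m r f ξ) {A' : ℕ → (H ≃ₗᵢ[ℂ] H)}
    (hA : ∀ j, A' j ξ = L (A j ξ)) : MO A' m r f ξ := by
  have h1 := (L.continuous.tendsto 0).comp h
  rw [map_zero] at h1
  refine h1.congr fun N => ?_
  simp only [Function.comp_apply]
  rw [vav, vav, map_smul, map_sum]
  congr 1
  refine Finset.sum_congr rfl fun j _ => ?_
  rw [map_smul, map_smul, hA]

end mo

variable {G : Type} [Group G]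
variable {H : Type*} [NormedAddCommGroup H] [InnerProductSpace ℂ H] [CompleteSpace H]
variable (π : G →* (H ≃ₗᵢ[ℂ] H))

theorem Sp_zero (t : ℕ → G) (n : ℤ) : Sp t 0 n = 1 := rfl

theorem Sp_succ (t : ℕ → G) (i : ℕ) (n : ℤ) :
    Sp t (i + 1) n = Sp t i n * t i ^ (Ring.choose n i : ℤ) := rfl

/-- the compact case -/
theorem MO_cpt {T : Subgroup G} {m r : ℕ} (hm : 0 < m) (hr : r < m) (t : ℕ → G) (ht : ∀ i, t i ∈ T)
    (M : ℕ) : ∀ (f : ℕ → ℝ), IsPF f → ∀ ξ ∈ CptS π T,
      MO (fun j => π (Sp t M j)) m r f ξ := by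
  induction M with
  | zero =>
    intro f hf ξ _
    obtain ⟨R, hR⟩ := hf
    have h1 := mob_poly R.natDegree R (Nat.le_succ _) m r hm hr
    have h2 : Tendsto (fun N => (cav (fun j => mob (m * j + r) * ee (R.eval (j : ℝ))) N) •
        ξ) atTop (𝓝 ((0 : ℂ) • ξ)) := h1.smul_const _
    rw [zero_smul] at h2
    refine h2.congr fun N => ?_
    rw [cav, vav, one_div, mul_smul, Finset.sum_smul]
    congr 1
    refine Finset.sum_congr rfl fun j _ => ?_
    show _ = mob (m * j + r) • (ee (f j) • π (Sp t 0 (j : ℤ)) ξ)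
    rw [hR, mul_smul, Sp_zero, pi_one]
  | succ M ih =>
    intro f hf ξ hξ
    refine MO.span (fun ζ hζ => ?_) ξ (cpt_span π (ht M) hξ)
    obtain ⟨hζT, l, hl, hlζ⟩ := hζ
    obtain ⟨θ, rfl⟩ := exists_ee hl
    have hpow : ∀ n : ℕ, π (t M ^ n) ζ = ee (n * θ) • ζ := by
      intro n
      induction n with
      | zero => rw [pow_zero, pi_one, Nat.cast_zero, zero_mul, ee_zero, one_smul]
      | succ n ihn =>
        rw [pow_succ, pi_mul, hlζ, map_smul, ihn, smul_smul, ← ee_add]
        congr 2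
        push_cast; ring
    have h1 := ih (fun j => f j + ((j.choose M : ℕ) : ℝ) * θ)
      (hf.add ((IsPF.choose M).mul (IsPF.const θ))) ζ hζT
    refine Tendsto.congr (fun N => ?_) h1
    rw [vav, vav]
    congr 1
    refine Finset.sum_congr rfl fun j _ => ?_
    congr 1
    show ee (f j + ((j.choose M : ℕ) : ℝ) * θ) • π (Sp t M (j : ℤ)) ζ =
      ee (f j) • π (Sp t (M + 1) (j : ℤ)) ζ
    rw [Sp_succ, Ring.choose_natCast, zpow_natCast, pi_mul, hpow, map_smul, smul_smul,
      ← ee_add]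

theorem Sp_coe {T : Subgroup G} (t : ℕ → T) (M : ℕ) (n : ℤ) :
    ((Sp t M n : T) : G) = Sp (fun i => (t i : G)) M n := by
  induction M with
  | zero => rfl
  | succ M ih =>
    rw [Sp, Sp, ← ih]
    push_cast
    rfl

/-- pure vectors -/
theorem MO_pure [Group.IsNilpotent G] {T : Subgroup G} {ξ : H} (hξ : ξ ∈ PS π T) {g : ℤ → G}
    (hg : IsPoly g) {m r : ℕ} (hm : 0 < m) (hr : r < m) {f : ℕ → ℝ} (hf : IsPF f) :
    MO (fun j => π (g j)) m r f ξ := by
  by_cases h0 : ξ = 0
  · rw [h0]; exact MO.zero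
  have hiso := PS_iso π hξ h0
  set F : ℤ → G := fun n => (g n)⁻¹ with hF
  have hFp : IsPoly F := hg.inv
  by_cases hT : ∀ n, F n * (F 0)⁻¹ ∈ T
  · have hT' : ∀ n, (g 0)⁻¹ * g n ∈ T := by
      intro n
      have := inv_mem (hT n)
      rw [hF] at this
      simpa using this
    set s : ℤ → T := fun n => ⟨(g 0)⁻¹ * g n, hT' n⟩ with hs
    have hsp : IsPoly s := by
      apply IsPoly.lift T.subtype (Subgroup.subtype_injective _)
      exact (IsPoly.const (g 0)⁻¹).mul hg
    obtain ⟨t, M, ht⟩ := taylor hsp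
    have h1 := MO_cpt π hm hr (fun i => (t i : G)) (fun i => (t i).2) M f hf ξ ((mem_PS π).1 hξ).1
    refine h1.left (π (g 0)) fun j => ?_
    rw [← pi_mul, ← Sp_coe, ← ht]
    congr 2
    show g j = g 0 * ((g 0)⁻¹ * g j)
    group
  · have hone : ∀ η ∈ PS π T, ‖η‖ ≤ 1 → MO (fun j => π (g j)) m r f η := by
      intro η hη hη1
      by_cases hη0 : η = 0
      · rw [hη0]; exact MO.zero
      refine kataiAP (Y := fun j => ee (f j) • π (g j) η) (fun n => ?_) hm hr ?_
      · rw [norm_smul, norm_ee, one_mul, LinearIsometryEquiv.norm_map]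
        exact hη1
      · intro p q hp hq hne t t'
        rw [tendsto_cav_iff]
        set fl : ℤ → G := fun l => F (p * l + t) * (F (q * l + t'))⁻¹ with hfl
        have hflp : IsPoly fl := (hFp.affine p t).mul (hFp.affine q t').inv
        obtain ⟨D, hD⟩ := hflp
        have hfl0 : ¬ ∀ n, fl n * (fl 0)⁻¹ ∈ T := by
          intro hall
          apply hT
          refine dilate_iso hiso hFp (p := p) (q := q) (t := t) (t' := t') hne fun l => ?_
          have := hall l
          simp only [hfl, mul_zero, zero_add] at this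
          exact this
        have h3 := erg π hη hη0 D hD hfl0 η
        refine squeeze_zero (fun N => by positivity) (fun N => ?_) h3
        rw [av, div_eq_inv_mul]
        refine mul_le_mul_of_nonneg_left ?_ (by positivity)
        refine (norm_sum_le _ _).trans (Finset.sum_le_sum fun n _ => le_of_eq ?_)
        rw [inner_smul_left, inner_smul_right, norm_mul, norm_mul, RCLike.norm_conj,
          norm_ee, norm_ee, one_mul, one_mul, inner_pi_left,
          ← pi_mul]
        congr 4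
        simp only [hfl, hF]
        push_cast
        group
    have hc : (0 : ℝ) < ‖ξ‖ + 1 := by positivity
    have h1 := hone (((‖ξ‖ + 1 : ℝ) : ℂ)⁻¹ • ξ) (Submodule.smul_mem _ _ hξ) (by
      rw [norm_smul, norm_inv, Complex.norm_real, Real.norm_eq_abs, abs_of_pos hc,
        inv_mul_le_iff₀ hc]
      linarith)
    have h2 := h1.smul ((‖ξ‖ + 1 : ℝ) : ℂ)
    rwa [smul_smul, mul_inv_cancel₀ (by rw [Ne, Complex.ofReal_eq_zero]; exact hc.ne'),
      one_smul] at h2

theorem wf_of_fg (h : ∀ K : Subgroup G, K.FG) : WellFoundedGT (Subgroup G) := by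
  rw [wellFoundedGT_iff_monotone_chain_condition]
  intro a
  obtain ⟨S, hS⟩ := h (⨆ n, a n)
  have hmem : ∀ s ∈ S, ∃ n, s ∈ a n := by
    intro s hs
    have h1 : s ∈ ⨆ n, a n := by rw [← hS]; exact Subgroup.subset_closure hs
    exact (Subgroup.mem_iSup_of_directed a.monotone.directed_le).1 h1
  choose! N hN using hmem
  refine ⟨S.sup N, fun m hm => le_antisymm (a.monotone hm) ?_⟩
  refine (le_iSup a m).trans ?_
  rw [← hS, Subgroup.closure_le]
  intro s hs
  exact a.monotone (Finset.le_sup hs) (hN s hs)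

/-- **Möbius orthogonality of polynomial sequences in nilpotent groups of unitary operators.** -/
theorem MO_all [Group.IsNilpotent G] {g : ℤ → G} (hg : IsPoly g) {m r : ℕ} (hm : 0 < m) (hr : r < m)
    {f : ℕ → ℝ} (hf : IsPF f) (ξ : H) : MO (fun j => π (g j)) m r f ξ := by
  set S := Subgroup.closure (Set.range g) with hS
  have hfg : S.FG := hg.fg
  have hNS := Pool.Agent.Helper111.EN.NSc.NS_of_nilpotent_fg S inferInstance hfg
  have hfgS : ∀ K : Subgroup S, K.FG := by
    intro K
    have h1 := hNS (K.map S.subtype) (by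
      rintro _ ⟨x, _, rfl⟩
      exact x.2)
    have h2 : Group.FG (K.map S.subtype) := (Group.fg_iff_subgroup_fg _).2 h1
    have e := K.equivMapOfInjective S.subtype (Subgroup.subtype_injective _)
    have h3 : Group.FG K := Group.fg_of_surjective (f := e.symm.toMonoidHom) e.symm.surjective
    exact (Group.fg_iff_subgroup_fg _).1 h3
  have hwf := wf_of_fg hfgS
  set π' : S →* (H ≃ₗᵢ[ℂ] H) := π.comp S.subtype with hπ'
  set g' : ℤ → S := fun n => ⟨g n, Subgroup.subset_closure ⟨n, rfl⟩⟩ with hg'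
  have hg'p : IsPoly g' := IsPoly.lift S.subtype (Subgroup.subtype_injective _) hg
  have h1 := pure_dense π' hwf
  have h2 : ξ ∈ (⨆ T : Subgroup S, PS π' T).topologicalClosure := by rw [h1]; trivial
  exact MO.iSup (fun T η hη => MO_pure π' hη hg'p hm hr hf) ξ h2

end Pool.Agent.P8H24.NU
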