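import Pool.Agent.P8H24.NU.Cpt

/-!
# Weakly mixing vectors
-/

set_option autoImplicit false

open Finset Filter Topology

namespace Pool.Agent.P8H24.NU

open Pool.Agent.TH261.AB Pool.Agent.Helper498.NCR Pool.Agent.W761.Gauss

/-- averages -/
noncomputable def av (a : ℕ → ℝ) (N : ℕ) : ℝ := (N : ℝ)⁻¹ * ∑ n ∈ range N, a n

theorem av_nonneg {a : ℕ → ℝ} (h : ∀ n, 0 ≤ a n) (N : ℕ) : 0 ≤ av a N :=
  mul_nonneg (by positivity) (Finset.sum_nonneg fun n _ => h n)

theorem av_mono {a b : ℕ → ℝ} (h : ∀ n, a n ≤ b n) (N : ℕ) : av a N ≤ av b N :=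
  mul_le_mul_of_nonneg_left (Finset.sum_le_sum fun n _ => h n) (by positivity)

theorem av_zero_of_le {a b : ℕ → ℝ} (h0 : ∀ n, 0 ≤ a n) (h : ∀ n, a n ≤ b n)
    (hb : Tendsto (av b) atTop (𝓝 0)) : Tendsto (av a) atTop (𝓝 0) :=
  squeeze_zero (av_nonneg h0) (av_mono h) hb

theorem av_add (a b : ℕ → ℝ) (N : ℕ) : av (fun n => a n + b n) N = av a N + av b N := by
  rw [av, av, av, Finset.sum_add_distrib, mul_add]

theorem av_sum {ι : Type*} (S : Finset ι) (a : ι → ℕ → ℝ)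
    (h : ∀ i ∈ S, Tendsto (av (a i)) atTop (𝓝 0)) :
    Tendsto (av fun n => ∑ i ∈ S, a i n) atTop (𝓝 0) := by
  classical
  induction S using Finset.induction_on with
  | empty =>
    have : (av fun n => ∑ i ∈ (∅ : Finset ι), a i n) = fun _ => 0 := by
      funext N; simp [av]
    rw [this]
    exact tendsto_const_nhds
  | insert i S hi ih =>
    have h1 := (h i (Finset.mem_insert_self _ _)).add
      (ih fun j hj => h j (Finset.mem_insert_of_mem hj))
    rw [add_zero] at h1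
    refine h1.congr fun N => ?_
    rw [← av_add]
    congr 1
    funext n
    rw [Finset.sum_insert hi]

/-- approximation -/
theorem av_of_eps {a : ℕ → ℝ} (h0 : ∀ n, 0 ≤ a n)
    (h : ∀ ε : ℝ, 0 < ε → ∃ b : ℕ → ℝ, Tendsto (av b) atTop (𝓝 0) ∧ ∀ n, a n ≤ ε + b n) :
    Tendsto (av a) atTop (𝓝 0) := by
  rw [Metric.tendsto_atTop]
  intro ε hε
  obtain ⟨b, hb, hab⟩ := h (ε / 2) (by positivity)
  obtain ⟨N0, hN0⟩ := Metric.tendsto_atTop.1 hb (ε / 2) (by positivity)
  refine ⟨N0, fun N hN => ?_⟩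
  have h1 := hN0 N hN
  rw [dist_zero_right, Real.norm_eq_abs] at h1 ⊢
  rw [abs_of_nonneg (av_nonneg h0 N)]
  have h2 := av_mono hab N
  rw [av_add] at h2
  have h3 : av (fun _ => ε / 2) N ≤ ε / 2 := by
    rw [av, Finset.sum_const, Finset.card_range, nsmul_eq_mul]
    rcases Nat.eq_zero_or_pos N with h0 | h0
    · subst h0; simp; positivity
    · have : (N : ℝ) ≠ 0 := by exact_mod_cast h0.ne'
      rw [inv_mul_cancel_left₀ this]
  have h4 := le_abs_self (av b N)
  linarith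

theorem unimod (z : ℂ) : ∃ c : ℂ, ‖c‖ = 1 ∧ c * z = (‖z‖ : ℂ) := by
  by_cases hz : z = 0
  · exact ⟨1, norm_one, by rw [hz]; simp⟩
  · have hn : (‖z‖ : ℂ) ≠ 0 := by
      rw [Ne, Complex.ofReal_eq_zero]
      exact norm_ne_zero_iff.2 hz
    refine ⟨(starRingEnd ℂ) z / ‖z‖, ?_, ?_⟩
    · rw [norm_div, RCLike.norm_conj, Complex.norm_real, norm_norm, div_self]
      exact norm_ne_zero_iff.2 hz
    · rw [div_mul_eq_mul_div, div_eq_iff hn, Complex.conj_mul', pow_two]

section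

variable {H : Type*} [NormedAddCommGroup H] [InnerProductSpace ℂ H]

/-- from averages of vectors with arbitrary phases to averages of absolute values -/
theorem av_of_vec (X : ℕ → H) (h : ∀ c : ℕ → ℂ, (∀ n, ‖c n‖ = 1) →
    Tendsto (fun N : ℕ => (N : ℂ)⁻¹ • ∑ n ∈ range N, c n • X n) atTop (𝓝 0)) (ζ : H) :
    Tendsto (av fun n => ‖inner ℂ ζ (X n)‖) atTop (𝓝 0) := by
  choose c hc1 hc2 using fun n => unimod (inner ℂ ζ (X n))
  have h1 := h c hc1
  have h2 := (continuous_const.inner continuous_id : Continuous fun y : H => inner ℂ ζ y).tendsto 0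
  rw [inner_zero_right] at h2
  have h3 := h2.comp h1
  have h4 := h3.norm
  rw [norm_zero] at h4
  refine h4.congr fun N => ?_
  simp only [Function.comp_apply]
  rw [inner_smul_right, inner_sum]
  have e : ∑ n ∈ range N, inner ℂ ζ (c n • X n) = ((∑ n ∈ range N, ‖inner ℂ ζ (X n)‖ : ℝ) : ℂ) := by
    rw [Complex.ofReal_sum]
    refine Finset.sum_congr rfl fun n _ => ?_
    rw [inner_smul_right, hc2]
  rw [e, norm_mul, norm_inv, Complex.norm_natCast, Complex.norm_real, Real.norm_eq_abs, av,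
    abs_of_nonneg (Finset.sum_nonneg fun n _ => norm_nonneg _)]

/-- van der Corput -/
theorem av_vdc (X : ℕ → H) {C : ℝ} (hC : ∀ n, ‖X n‖ ≤ C)
    (h : ∀ k : ℕ, 1 ≤ k → Tendsto (av fun n => ‖inner ℂ (X n) (X (n + k))‖) atTop (𝓝 0)) (ζ : H) :
    Tendsto (av fun n => ‖inner ℂ ζ (X n)‖) atTop (𝓝 0) := by
  have hC0 : 0 ≤ C := (norm_nonneg _).trans (hC 0)
  refine av_of_vec X (fun c hc => ?_) ζ
  refine vdcH (C := C) hC0 (fun n => by rw [norm_smul, hc, one_mul]; exact hC n)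
    (fun h => if h = 0 then C ^ 2 else 0) (by simp) (fun h => by positivity) ?_ ?_
  · intro k hk ε hε
    have h1 := h k hk
    have hk0 : ¬ k = 0 := by omega
    filter_upwards [h1.eventually (gt_mem_nhds hε)] with N hN
    rw [if_neg hk0, zero_add]
    refine le_trans ?_ hN.le
    rw [A1, av, norm_mul, norm_inv, Complex.norm_natCast]
    refine mul_le_mul_of_nonneg_left ((norm_sum_le _ _).trans (Finset.sum_le_sum fun n _ => ?_))
      (by positivity)
    rw [inner_smul_left, inner_smul_right, norm_mul, norm_mul, RCLike.norm_conj, hc, hc, one_mul,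
      one_mul]
  · intro ε hε
    obtain ⟨M, hM⟩ := exists_nat_gt (C ^ 2 / ε)
    have hM0 : (0 : ℝ) < M := lt_of_le_of_lt (by positivity) hM
    have hM1 : 1 ≤ M := by
      have : 0 < M := by exact_mod_cast hM0
      omega
    refine ⟨M, hM1, ?_⟩
    rw [Finset.sum_ite_eq' (range M) 0, if_pos (Finset.mem_range.2 (by omega)),
      inv_mul_le_iff₀ hM0]
    rw [div_lt_iff₀ hε] at hM
    exact hM.le

end

variable {G : Type} [Group G]
variable {H : Type*} [NormedAddCommGroup H] [InnerProductSpace ℂ H] [CompleteSpace H]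
variable (π : G →* (H ≃ₗᵢ[ℂ] H))

/-- the span of the eigenvectors of `π x` -/
def EV (x : G) : Submodule ℂ H := EigSpan (π x).toLinearIsometry

omit [CompleteSpace H] in
theorem mem_EV {x : G} {l : ℂ} (hl : ‖l‖ = 1) {ζ : H} (h : π x ζ = l • ζ) : ζ ∈ EV π x :=
  Submodule.subset_span ⟨l, hl, h⟩

omit [CompleteSpace H] in
theorem mem_EV_orth {x : G} {ξ : H} : ξ ∈ (EV π x)ᗮ ↔
    ∀ (l : ℂ) (ζ : H), ‖l‖ = 1 → π x ζ = l • ζ → inner ℂ ζ ξ = 0 := by
  constructor
  · intro h l ζ hl hζ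
    exact (Submodule.mem_orthogonal _ _).1 h ζ (mem_EV π hl hζ)
  · intro h
    rw [Submodule.mem_orthogonal]
    intro u hu
    unfold EV EigSpan at hu
    induction hu using Submodule.span_induction with
    | mem x hx =>
      obtain ⟨l, hl, hx⟩ := hx
      exact h l x hl hx
    | zero => exact inner_zero_left _
    | add x y _ _ hx hy => rw [inner_add_left, hx, hy, add_zero]
    | smul c x _ hx => rw [inner_smul_left, hx, mul_zero]

omit [CompleteSpace H] in
theorem pi_pow_eq (x : G) (n : ℕ) (ξ : H) : ((π x).toLinearIsometry ^ n) ξ = π (x ^ n) ξ := by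
  induction n with
  | zero => rw [pow_zero, pow_zero, pi_one]; rfl
  | succ n ih => rw [U_pow_succ, ih, pow_succ', pi_mul]; rfl

/-- weak mixing along the powers -/
theorem av_wm {x : G} {ξ : H} (hξ : ξ ∈ (EV π x)ᗮ) (ζ : H) :
    Tendsto (av fun n => ‖inner ℂ ζ (π (x ^ n) ξ)‖) atTop (𝓝 0) := by
  refine av_of_vec _ (fun c hc => ?_) ζ
  have hV : Proj (fun a : ℤ => (π (x ^ a)).toLinearIsometry) := by
    intro a b
    refine ⟨1, norm_one, fun y => ?_⟩
    rw [one_smul]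
    show π (x ^ (a + b)) y = π (x ^ a) (π (x ^ b) y)
    rw [zpow_add, pi_mul]
  have hW : Wn (fun a : ℤ => (π (x ^ a)).toLinearIsometry) 1 ξ := by
    intro ε hε
    obtain ⟨_, M, _, hM, h6⟩ := wiener (π x).toLinearIsometry ξ hξ ε hε
    refine ⟨M, hM, le_trans (le_of_eq ?_) h6⟩
    congr 1
    refine Finset.sum_congr rfl fun h _ => ?_
    rw [pi_pow_eq]
    show ‖inner ℂ ξ (π (x ^ (h • (1 : ℤ))) ξ)‖ ^ 2 = _
    rw [nsmul_eq_mul, mul_one, zpow_natCast]
  have h1 := avg_zero hV ξ 0 (fun n => (n : ℤ)) 1 c hc (by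
    show Pool.Agent.TH261.AB.Top 0 (fun n : ℕ => ((n + 1 : ℕ) : ℤ) - (n : ℤ)) 1
    intro n
    push_cast
    ring) hW
  refine h1.congr fun N => ?_
  congr 1
  refine Finset.sum_congr rfl fun n _ => ?_
  congr 1
  show π (x ^ (n : ℤ)) ξ = _
  rw [zpow_natCast]

omit [CompleteSpace H] in
/-- vectors whose orbit is orthogonal are weakly mixing -/
theorem wm_of_orth {x : G} {ξ : H} (h : ∀ k : ℕ, 1 ≤ k → inner ℂ ξ (π (x ^ k) ξ) = 0) :
    ξ ∈ (EV π x)ᗮ := by
  rw [mem_EV_orth]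
  intro l ζ hl hζ
  have h1 := av_vdc (fun n => π (x ^ n) ξ) (C := ‖ξ‖)
    (fun n => (LinearIsometryEquiv.norm_map _ _).le) (fun k hk => by
      have : (av fun n => ‖inner ℂ (π (x ^ n) ξ) (π (x ^ (n + k)) ξ)‖) = fun _ => 0 := by
        funext N
        rw [av]
        have : ∀ n ∈ range N, ‖inner ℂ (π (x ^ n) ξ) (π (x ^ (n + k)) ξ)‖ = 0 := by
          intro n _
          rw [pow_add, pi_mul, inner_pi_pi, h k hk, norm_zero]
        rw [Finset.sum_congr rfl this, Finset.sum_const_zero, mul_zero]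
      rw [this]
      exact tendsto_const_nhds) ζ
  have h2 : ∀ n : ℕ, ‖inner ℂ ζ (π (x ^ n) ξ)‖ = ‖inner ℂ ζ ξ‖ := by
    intro n
    have h3 : ∀ n : ℕ, π (x ^ n) ζ = l ^ n • ζ := by
      intro n
      induction n with
      | zero => rw [pow_zero, pi_one, pow_zero, one_smul]
      | succ n ih => rw [pow_succ, pi_mul, hζ, map_smul, ih, smul_smul, pow_succ, mul_comm]
    have h4 : inner ℂ (π (x ^ n) ζ) (π (x ^ n) ξ) = inner ℂ ζ ξ := inner_pi_pi _ _ _ _
    rw [← h4, h3, inner_smul_left, norm_mul, RCLike.norm_conj, norm_pow, hl, one_pow, one_mul]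
  simp only [h2] at h1
  have h5 : Tendsto (av fun _ => ‖inner ℂ ζ ξ‖) atTop (𝓝 ‖inner ℂ ζ ξ‖) := by
    refine tendsto_const_nhds.congr' ?_
    filter_upwards [eventually_gt_atTop 0] with N hN
    have : (N : ℝ) ≠ 0 := by exact_mod_cast hN.ne'
    rw [av, Finset.sum_const, Finset.card_range, nsmul_eq_mul, inv_mul_cancel_left₀ this]
  exact norm_eq_zero.1 (tendsto_nhds_unique h5 h1)

/-- compact vectors are orthogonal to weakly mixing vectors -/
theorem orth_of_wm {T : Subgroup G} {y : G} (hy : y ∈ T) {η ξ : H} (hη : η ∈ CptS π T)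
    (hξ : ξ ∈ (EV π y)ᗮ) : inner ℂ η ξ = 0 := by
  have h0 : Tendsto (av fun _ => ‖inner ℂ η ξ‖) atTop (𝓝 0) := by
    refine av_of_eps (fun _ => norm_nonneg _) fun ε hε => ?_
    obtain ⟨S, hS⟩ := (mem_CptS π).1 hη (ε / (‖ξ‖ + 1)) (by positivity)
    refine ⟨fun n => ∑ s ∈ S, ‖inner ℂ s (π (y ^ n) ξ)‖, av_sum S _ fun s _ => av_wm π hξ s,
      fun n => ?_⟩
    obtain ⟨s, hs, h1⟩ := hS (y ^ n) (pow_mem hy n)
    have e : inner ℂ η ξ = inner ℂ (π (y ^ n) η - s) (π (y ^ n) ξ) + inner ℂ s (π (y ^ n) ξ) := by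
      rw [← inner_add_left, sub_add_cancel, inner_pi_pi]
    rw [e]
    refine (norm_add_le _ _).trans (add_le_add ?_ ?_)
    · refine (norm_inner_le_norm _ _).trans ?_
      rw [LinearIsometryEquiv.norm_map]
      rw [lt_div_iff₀ (by positivity)] at h1
      nlinarith [norm_nonneg ξ, norm_nonneg (π (y ^ n) η - s)]
    · exact Finset.single_le_sum (f := fun s => ‖inner ℂ s (π (y ^ n) ξ)‖)
        (fun _ _ => norm_nonneg _) hs
  have h5 : Tendsto (av fun _ => ‖inner ℂ η ξ‖) atTop (𝓝 ‖inner ℂ η ξ‖) := by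
    refine tendsto_const_nhds.congr' ?_
    filter_upwards [eventually_gt_atTop 0] with N hN
    have : (N : ℝ) ≠ 0 := by exact_mod_cast hN.ne'
    rw [av, Finset.sum_const, Finset.card_range, nsmul_eq_mul, inv_mul_cancel_left₀ this]
  exact norm_eq_zero.1 (tendsto_nhds_unique h5 h0)

/-- averages along powers modulo the compact part -/
theorem av_cpt {T : Subgroup G} {w : G} {ξ : H} (hξ : ξ ∈ CptS π T)
    (hw : ∀ t ∈ T, π t ξ ∈ (EV π w)ᗮ) (t : ℕ → G) (ht : ∀ n, t n ∈ T) (ζ : H) :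
    Tendsto (av fun n => ‖inner ℂ ζ (π (w ^ n) (π (t n) ξ))‖) atTop (𝓝 0) := by
  refine av_of_eps (fun _ => norm_nonneg _) fun ε hε => ?_
  obtain ⟨S, hST, hS⟩ := CptS_net π hξ (ε / (‖ζ‖ + 1)) (by positivity)
  refine ⟨fun n => ∑ s ∈ S, ‖inner ℂ ζ (π (w ^ n) (π s ξ))‖,
    av_sum S _ fun s hs => av_wm π (hw s (hST s hs)) ζ, fun n => ?_⟩
  obtain ⟨s, hs, h1⟩ := hS (t n) (ht n)
  have e : inner ℂ ζ (π (w ^ n) (π (t n) ξ)) = inner ℂ ζ (π (w ^ n) (π (t n) ξ - π s ξ)) +
      inner ℂ ζ (π (w ^ n) (π s ξ)) := by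
    rw [← inner_add_right, ← map_add, sub_add_cancel]
  rw [e]
  refine (norm_add_le _ _).trans (add_le_add ?_ ?_)
  · refine (norm_inner_le_norm _ _).trans ?_
    rw [LinearIsometryEquiv.norm_map]
    rw [lt_div_iff₀ (by positivity)] at h1
    nlinarith [norm_nonneg ζ, norm_nonneg (π (t n) ξ - π s ξ)]
  · exact Finset.single_le_sum (f := fun s => ‖inner ℂ ζ (π (w ^ n) (π s ξ))‖)
      (fun _ _ => norm_nonneg _) hs

omit [CompleteSpace H] in
theorem EV_inv (x : G) : EV π x⁻¹ = EV π x := by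
  have key : ∀ x : G, EV π x ≤ EV π x⁻¹ := by
    intro x
    unfold EV EigSpan
    rw [Submodule.span_le]
    rintro ζ ⟨l, hl, h⟩
    have hl0 : l ≠ 0 := by intro h0; rw [h0, norm_zero] at hl; exact zero_ne_one hl
    refine Submodule.subset_span ⟨l⁻¹, by rw [norm_inv, hl, inv_one], ?_⟩
    have h3 := pi_inv_pi π x ζ
    have h' : π x ζ = l • ζ := h
    rw [h', map_smul] at h3
    show π x⁻¹ ζ = _
    rw [eq_inv_smul_iff₀ hl0]
    exact h3
  refine le_antisymm ?_ (key x)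
  have := key x⁻¹
  rwa [inv_inv] at this

/-- the component of a vector in `CptS T` -/
theorem exists_comp (T : Subgroup G) (ξ : H) : ∃ a ∈ CptS π T, ∃ b ∈ (CptS π T)ᗮ, ξ = a + b := by
  have : CompleteSpace (CptS π T) := (CptS_closed π T).completeSpace_coe
  obtain ⟨y, hy, z, hz, h⟩ := (CptS π T).exists_add_mem_mem_orthogonal ξ
  exact ⟨y, hy, z, hz, h⟩

omit [CompleteSpace H] in
theorem orth_norm {T : Subgroup G} {x : G} (hx : x ∈ Subgroup.normalizer (T : Set G)) {b : H}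
    (hb : b ∈ (CptS π T)ᗮ) : π x b ∈ (CptS π T)ᗮ := by
  rw [Submodule.mem_orthogonal] at hb ⊢
  intro u hu
  rw [inner_pi_right]
  exact hb _ (CptS_norm π (inv_mem hx) hu)

omit [CompleteSpace H] in
/-- the component of an eigenvector -/
theorem comp_eig {T : Subgroup G} {x : G} (hx : x ∈ Subgroup.normalizer (T : Set G)) {a b : H}
    (ha : a ∈ CptS π T) (hb : b ∈ (CptS π T)ᗮ) {l : ℂ} (h : π x (a + b) = l • (a + b)) :
    π x a = l • a := by
  have h1 : π x a - l • a = l • b - π x b := by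
    rw [map_add, smul_add] at h
    rw [sub_eq_sub_iff_add_eq_add, h]
    abel
  have h2 : π x a - l • a ∈ CptS π T := Submodule.sub_mem _ (CptS_norm π hx ha)
    (Submodule.smul_mem _ _ ha)
  have h3 : π x a - l • a ∈ (CptS π T)ᗮ := by
    rw [h1]
    exact Submodule.sub_mem _ (Submodule.smul_mem _ _ hb) (orth_norm π hx hb)
  have h4 := (Submodule.mem_orthogonal _ _).1 h3 _ h2
  rw [inner_self_eq_zero] at h4
  exact sub_eq_zero.1 h4

/-- compact vectors are limits of sums of compact eigenvectors -/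
theorem cpt_span {T : Subgroup G} {y : G} (hy : y ∈ T) {ξ : H} (hξ : ξ ∈ CptS π T) :
    ξ ∈ (Submodule.span ℂ {ζ : H | ζ ∈ CptS π T ∧ ∃ l : ℂ, ‖l‖ = 1 ∧ π y ζ = l • ζ}).topologicalClosure := by
  set M := (Submodule.span ℂ {ζ : H | ζ ∈ CptS π T ∧ ∃ l : ℂ, ‖l‖ = 1 ∧ π y ζ = l • ζ}) with hM
  have hMT : M.topologicalClosure ≤ CptS π T := by
    refine Submodule.topologicalClosure_minimal _ ?_ (CptS_closed π T)
    rw [hM, Submodule.span_le]
    rintro ζ ⟨h, -⟩
    exact h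
  have : CompleteSpace M.topologicalClosure :=
    (Submodule.isClosed_topologicalClosure M).completeSpace_coe
  obtain ⟨a, ha, b, hb, h⟩ := M.topologicalClosure.exists_add_mem_mem_orthogonal ξ
  have hbT : b ∈ CptS π T := by
    have : b = ξ - a := by rw [h]; abel
    rw [this]
    exact Submodule.sub_mem _ hξ (hMT ha)
  have hbw : b ∈ (EV π y)ᗮ := by
    rw [mem_EV_orth]
    intro l ζ hl hζ
    obtain ⟨a', ha', b', hb', h'⟩ := exists_comp π T ζ
    have h1 : π y a' = l • a' := comp_eig π (Subgroup.le_normalizer hy) ha' hb' (by rw [← h']; exact hζ)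
    have h2 : a' ∈ M.topologicalClosure := Submodule.le_topologicalClosure _
      (Submodule.subset_span ⟨ha', l, hl, h1⟩)
    rw [h', inner_add_left, (Submodule.mem_orthogonal _ _).1 hb a' h2,
      (Submodule.mem_orthogonal' _ _).1 hb' b hbT, add_zero]
  have h0 := orth_of_wm π hy hbT hbw
  rw [inner_self_eq_zero] at h0
  rw [h, h0, add_zero]
  exact ha

end Pool.Agent.P8H24.NU
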