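import Pool.Agent.P8H24.NU.Vn

/-!
# Orbits of endomorphisms whose differences generate a virtually nilpotent group
-/

set_option autoImplicit false

namespace Pool.Agent.P8H24.NU

open Pool.Agent.Helper28.LCN

section

variable {Γ : Type} [Group Γ]

/-- iterates -/
def itm (σ : Γ →* Γ) (n : ℕ) : Γ →* Γ := MonoidHom.mk' (σ^[n]) fun x y => by
  induction n generalizing x y with
  | zero => simp
  | succ n ih => rw [Function.iterate_succ_apply, Function.iterate_succ_apply,
      Function.iterate_succ_apply, map_mul, ih]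

theorem itm_apply (σ : Γ →* Γ) (n : ℕ) (x : Γ) : itm σ n x = (σ^[n]) x := rfl

theorem itm_add (σ : Γ →* Γ) (m n : ℕ) (x : Γ) : itm σ (m + n) x = itm σ m (itm σ n x) := by
  rw [itm_apply, itm_apply, itm_apply, Function.iterate_add_apply]

theorem itm_mul (σ : Γ →* Γ) (m n : ℕ) (x : Γ) : itm (itm σ m) n x = itm σ (m * n) x := by
  rw [itm_apply, itm_apply, Function.iterate_mul]
  rfl

/-- the difference map -/
def dm (τ : Γ →* Γ) (x : Γ) : Γ := x⁻¹ * τ x

theorem dm_mul (τ : Γ →* Γ) (x : Γ) : τ x = x * dm τ x := by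
  rw [dm, mul_inv_cancel_left]

theorem dm_one (τ : Γ →* Γ) : dm τ 1 = 1 := by
  rw [dm, map_one, inv_one, one_mul]

/-- the set of the iterated differences -/
def Ds (τ : Γ →* Γ) (g : Γ) : Set Γ := {x | ∃ i : ℕ, x = (dm τ)^[i + 1] g}

theorem dm_iter_one {τ : Γ →* Γ} {g : Γ} {k : ℕ} (hk : (dm τ)^[k] g = 1) {i : ℕ} (hi : k ≤ i) :
    (dm τ)^[i] g = 1 := by
  obtain ⟨j, rfl⟩ := Nat.exists_eq_add_of_le hi
  rw [add_comm, Function.iterate_add_apply, hk]
  induction j with
  | zero => rfl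
  | succ j ih => rw [Function.iterate_succ_apply, dm_one, ih (Nat.le_add_right _ _)]

/-- for one endomorphism, along all integers -/
theorem orb_one (τ : Γ →* Γ) (g : Γ) {k : ℕ} (hk : (dm τ)^[k] g = 1)
    (hv : Group.IsVirtuallyNilpotent (Subgroup.closure (Ds τ g))) :
    ∃ (G : Type) (_ : Group G) (_ : Group.IsNilpotent G) (φ : G →* Γ) (q : ℕ), 0 < q ∧
      ∀ s : ℕ, ∃ (p : ℤ → G) (c : Γ), IsPoly p ∧
        ∀ n : ℕ, itm τ (q * n + s) g = g * (c * φ (p n)) := by
  set G₀ : Subgroup Γ := Subgroup.closure (Ds τ g) with hG₀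
  obtain ⟨N0, hN0, hN0'⟩ := hv
  set N : Subgroup G₀ := N0.normalCore with hN
  have hNn : Group.IsNilpotent N := by
    refine Subgroup.isNilpotent_of_ker_le_center (Subgroup.inclusion (Subgroup.normalCore_le N0)) ?_
    rw [(MonoidHom.ker_eq_bot_iff _).2 (Subgroup.inclusion_injective _)]
    exact bot_le
  -- the orbit of the differences stays in `G₀`
  have hmem : ∀ n i : ℕ, itm τ n ((dm τ)^[i + 1] g) ∈ G₀ := by
    intro n
    induction n with
    | zero => intro i; exact Subgroup.subset_closure ⟨i, rfl⟩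
    | succ n ih =>
      intro i
      rw [itm_add, itm_apply τ 1, Function.iterate_one, dm_mul τ, map_mul]
      refine mul_mem (ih i) ?_
      rw [← Function.iterate_succ_apply' (dm τ)]
      exact ih (i + 1)
  set F : ℕ → ℕ → G₀ := fun i n => (⟨_, hmem n i⟩ : G₀)⁻¹ with hF
  have hFs : ∀ i n, F i (n + 1) = F (i + 1) n * F i n := by
    intro i n
    rw [hF]
    simp only
    rw [← mul_inv_rev]
    congr 1
    refine Subtype.ext ?_
    rw [Subgroup.coe_mul]
    show itm τ (n + 1) ((dm τ)^[i + 1] g) = itm τ n ((dm τ)^[i + 1] g) *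
      itm τ n ((dm τ)^[i + 1 + 1] g)
    rw [itm_add, itm_apply τ 1, Function.iterate_one, dm_mul τ, map_mul,
      ← Function.iterate_succ_apply' (dm τ)]
  have hVP : ∀ j i : ℕ, k ≤ i + 1 + j → VP N (F i) := by
    intro j
    induction j with
    | zero =>
      intro i hi
      have h1 : F i = fun _ => 1 := by
        funext n
        rw [hF]
        simp only
        rw [inv_eq_one]
        refine Subtype.ext ?_
        show itm τ n ((dm τ)^[i + 1] g) = 1
        rw [dm_iter_one hk hi, map_one]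
      rw [h1]
      exact VP.const N 1
    | succ j ih =>
      intro i hi
      exact VP.sum (hFs i) (ih (i + 1) (by omega))
  have h1 : VP N (F 0) := hVP k 0 (by omega)
  let u : ℕ → G₀ := fun n => Nat.rec 1 (fun n x => F 0 n * x) n
  have hus : ∀ n, u (n + 1) = F 0 n * u n := fun n => rfl
  obtain ⟨q, hq, h2⟩ := VP.sum hus h1
  have h3 : ∀ n : ℕ, itm τ n g = g * ((u n)⁻¹ : G₀) := by
    intro n
    induction n with
    | zero =>
      show g = g * ((1 : G₀)⁻¹ : G₀)
      simp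
    | succ n ih =>
      rw [itm_add, itm_apply τ 1, Function.iterate_one, dm_mul τ, map_mul, ih, hus, mul_inv_rev,
        Subgroup.coe_mul, mul_assoc]
      congr 2
      show itm τ n (dm τ g) = ((F 0 n)⁻¹ : G₀)
      rw [hF]
      simp only
      rw [inv_inv]
      rfl
  refine ⟨N, inferInstance, hNn, G₀.subtype.comp N.subtype, q, hq, fun s => ?_⟩
  obtain ⟨p, c, hp, h4⟩ := h2 s
  refine ⟨fun n => (p n)⁻¹, ((c⁻¹ : G₀) : Γ), hp.inv, fun n => ?_⟩
  rw [h3, h4, mul_inv_rev]
  rfl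

/-- with a power of the endomorphism -/
theorem orb_group (σ : Γ →* Γ) (g : Γ) {m : ℕ} (hm : 0 < m) {k : ℕ}
    (hk : (dm (itm σ m))^[k] g = 1)
    (hv : Group.IsVirtuallyNilpotent (Subgroup.closure (Ds (itm σ m) g))) :
    ∃ q : ℕ, 0 < q ∧ ∀ r : ℕ, ∃ (G : Type) (_ : Group G) (_ : Group.IsNilpotent G) (θ : G →* Γ)
      (p : ℤ → G) (a : Γ), IsPoly p ∧ ∀ n : ℕ, (σ^[q * n + r]) g = a * θ (p n) := by
  obtain ⟨G, iG, hG, φ, q, hq, h1⟩ := orb_one (itm σ m) g hk hv
  refine ⟨m * q, Nat.mul_pos hm hq, fun r => ?_⟩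
  obtain ⟨p, c, hp, h2⟩ := h1 (r / m)
  refine ⟨G, iG, hG, (itm σ (r % m)).comp φ, p, itm σ (r % m) (g * c), hp, fun n => ?_⟩
  have h3 := h2 n
  rw [itm_mul] at h3
  have h4 : m * q * n + r = r % m + m * (q * n + r / m) := by
    have := Nat.mod_add_div r m
    nlinarith
  rw [← itm_apply, h4, itm_add, h3, ← mul_assoc, map_mul]
  rfl

end

end Pool.Agent.P8H24.NU
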