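import Pool.Agent.P8H24.NU.Main
import Pool.Agent.P8H24.NU.Orb
import Pool.Agent.TH261.NP.TopS

/-!
# Scalar sequences along polynomial sequences in nilpotent groups, and their products
-/

set_option autoImplicit false

open Finset Filter Topology

namespace Pool.Agent.P8H24.NU

open Pool.Agent.Helper188.NCM
open Pool.Agent.TH261.AB (vav vav_norm vav_le vav_of_residues IsPF)
open Pool.Agent.TH261.NP (tV tV_tt pf_dil)
open Pool.Agent.W661.Nrm
open Pool.Agent.H500R2.PR.TH6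
open scoped InnerProductSpace

section tens

variable {H1 H2 : Type} [NormedAddCommGroup H1] [InnerProductSpace ℂ H1] [CompleteSpace H1]
  [NormedAddCommGroup H2] [InnerProductSpace ℂ H2] [CompleteSpace H2]

theorem tV_mul1 (V1 W1 : H1 ≃ₗᵢ[ℂ] H1) (V2 W2 : H2 ≃ₗᵢ[ℂ] H2) :
    tV (V1 * W1) (V2 * W2) = tV V1 V2 * tV W1 W2 := by
  refine LinearIsometryEquiv.ext fun z => ?_
  have : ((tV (V1 * W1) (V2 * W2)).toContinuousLinearEquiv : KK H1 H2 →L[ℂ] KK H1 H2) =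
      ((tV V1 V2).toContinuousLinearEquiv : KK H1 H2 →L[ℂ] KK H1 H2).comp
      ((tV W1 W2).toContinuousLinearEquiv : KK H1 H2 →L[ℂ] KK H1 H2) := by
    refine ext_tt fun x y => ?_
    show tV (V1 * W1) (V2 * W2) (tt x y) = tV V1 V2 (tV W1 W2 (tt x y))
    rw [tV_tt, tV_tt, tV_tt]
    rfl
  exact congrArg (fun T : KK H1 H2 →L[ℂ] KK H1 H2 => T z) this

theorem tV_one : tV (1 : H1 ≃ₗᵢ[ℂ] H1) (1 : H2 ≃ₗᵢ[ℂ] H2) = 1 := by
  refine LinearIsometryEquiv.ext fun z => ?_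
  have : ((tV (1 : H1 ≃ₗᵢ[ℂ] H1) (1 : H2 ≃ₗᵢ[ℂ] H2)).toContinuousLinearEquiv :
      KK H1 H2 →L[ℂ] KK H1 H2) = ContinuousLinearMap.id ℂ _ := by
    refine ext_tt fun x y => ?_
    show tV (1 : H1 ≃ₗᵢ[ℂ] H1) (1 : H2 ≃ₗᵢ[ℂ] H2) (tt x y) = tt x y
    rw [tV_tt]
    rfl
  exact congrArg (fun T : KK H1 H2 →L[ℂ] KK H1 H2 => T z) this

end tens

/-- scalar sequences along polynomial sequences in unitary representations of nilpotent groups -/
def IsNS (F : ℕ → ℂ) : Prop :=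
  ∃ (K : Type) (_ : NormedAddCommGroup K) (_ : InnerProductSpace ℂ K) (_ : CompleteSpace K)
    (G : Type) (_ : Group G) (_ : Group.IsNilpotent G) (π : G →* (K ≃ₗᵢ[ℂ] K))
    (g : ℤ → G) (f : ℕ → ℝ) (ξ η : K), IsPoly g ∧ IsPF f ∧
    ∀ n : ℕ, F n = ee (f n) * ⟪η, π (g n) ξ⟫_ℂ

theorem IsNS.const (c : ℂ) : IsNS fun _ => c := by
  refine ⟨ℂ, inferInstance, inferInstance, inferInstance, Unit, inferInstance, inferInstance,
    1, fun _ => 1, fun _ => 0, c, 1, IsPoly.const 1, IsPF.const 0, fun n => ?_⟩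
  rw [ee_zero, one_mul, MonoidHom.one_apply]
  show c = ⟪(1 : ℂ), c⟫_ℂ
  simp

theorem IsNS.dil {F : ℕ → ℂ} (h : IsNS F) (s t : ℕ) : IsNS fun n => F (s * n + t) := by
  obtain ⟨K, i1, i2, i3, G, i4, i5, π, g, f, ξ, η, hg, hf, hF⟩ := h
  refine ⟨K, i1, i2, i3, G, i4, i5, π, _, _, ξ, η, hg.affine s t, pf_dil hf s t, fun n => ?_⟩
  show F (s * n + t) = _
  rw [hF]
  push_cast
  rfl

theorem IsNS.mul {F F' : ℕ → ℂ} (h : IsNS F) (h' : IsNS F') : IsNS fun n => F n * F' n := by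
  obtain ⟨K, i1, i2, i3, G, i4, i5, π, g, f, ξ, η, hg, hf, hF⟩ := h
  obtain ⟨K', i1', i2', i3', G', i4', i5', π', g', f', ξ', η', hg', hf', hF'⟩ := h'
  refine ⟨KK K K', inferInstance, inferInstance, inferInstance, G × G', inferInstance,
    inferInstance, MonoidHom.mk' (fun p => tV (π p.1) (π' p.2)) (fun p p' => ?_),
    fun n => (g n, g' n), fun n => f n + f' n, tt ξ ξ', tt η η', ?_, hf.add hf', fun n => ?_⟩
  · show tV (π (p.1 * p'.1)) (π' (p.2 * p'.2)) = _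
    rw [map_mul, map_mul, tV_mul1]
  · have h1 : (fun n : ℤ => ((g n, g' n) : G × G')) =
        fun n => MonoidHom.inl G G' (g n) * MonoidHom.inr G G' (g' n) := by
      funext n
      refine Prod.ext ?_ ?_
      · simp
      · simp
    rw [h1]
    exact (hg.map _).mul (hg'.map _)
  · show F n * F' n = ee (f n + f' n) * ⟪tt η η', tV (π (g n)) (π' (g' n)) (tt ξ ξ')⟫_ℂ
    rw [hF, hF', ee_add, tV_tt, inner_tt]
    ring

theorem IsNS.bdd {F : ℕ → ℂ} (h : IsNS F) : ∃ C : ℝ, 0 ≤ C ∧ ∀ n, ‖F n‖ ≤ C := by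
  obtain ⟨K, i1, i2, i3, G, i4, i5, π, g, f, ξ, η, hg, hf, hF⟩ := h
  refine ⟨‖η‖ * ‖ξ‖, by positivity, fun n => ?_⟩
  rw [hF, norm_mul, norm_ee, one_mul]
  refine (norm_inner_le_norm _ _).trans ?_
  rw [LinearIsometryEquiv.norm_map]

theorem IsNS.mob {F : ℕ → ℂ} (h : IsNS F) {m r : ℕ} (hm : 0 < m) (hr : r < m) :
    Tendsto (vav fun j => mob (m * j + r) * F j) atTop (𝓝 0) := by
  obtain ⟨K, i1, i2, i3, G, i4, i5, π, g, f, ξ, η, hg, hf, hF⟩ := h
  have h1 := MO_all π hg hm hr hf ξ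
  have h2 := (continuous_const.inner continuous_id : Continuous fun y : K =>
    inner ℂ η y).tendsto 0
  rw [inner_zero_right] at h2
  refine (h2.comp h1).congr fun N => ?_
  rw [Function.comp_apply, vav, vav, inner_smul_right, inner_sum, smul_eq_mul]
  congr 1
  refine Finset.sum_congr rfl fun j _ => ?_
  rw [inner_smul_right, inner_smul_right, hF]

/-- along residue classes -/
def IsNQ (F : ℕ → ℂ) : Prop := ∃ q : ℕ, 0 < q ∧ ∀ r : ℕ, IsNS fun n => F (q * n + r)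

theorem IsNQ.const (c : ℂ) : IsNQ fun _ => c := ⟨1, one_pos, fun _ => IsNS.const c⟩

theorem IsNQ.mul {F F' : ℕ → ℂ} (h : IsNQ F) (h' : IsNQ F') : IsNQ fun n => F n * F' n := by
  obtain ⟨q, hq, h1⟩ := h
  obtain ⟨q', hq', h1'⟩ := h'
  refine ⟨q * q', Nat.mul_pos hq hq', fun r => ?_⟩
  have h2 := (h1 r).dil q' 0
  have h2' := (h1' r).dil q 0
  have h3 := h2.mul h2'
  have e : (fun n => F (q * q' * n + r) * F' (q * q' * n + r)) =
      fun n => F (q * (q' * n + 0) + r) * F' (q' * (q * n + 0) + r) := by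
    funext n
    rw [show q * (q' * n + 0) + r = q * q' * n + r by ring,
      show q' * (q * n + 0) + r = q * q' * n + r by ring]
  rw [e]
  exact h3

theorem IsNQ.bdd {F : ℕ → ℂ} (h : IsNQ F) : ∃ C : ℝ, 0 ≤ C ∧ ∀ n, ‖F n‖ ≤ C := by
  obtain ⟨q, hq, h1⟩ := h
  choose C hC0 hC using fun r => (h1 r).bdd
  refine ⟨∑ r ∈ range q, C r, Finset.sum_nonneg fun r _ => hC0 r, fun n => ?_⟩
  have h2 := hC (n % q) (n / q)
  rw [Nat.div_add_mod] at h2
  exact h2.trans (Finset.single_le_sum (fun r _ => hC0 r) (Finset.mem_range.2 (Nat.mod_lt n hq)))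

theorem IsNQ.mob {F : ℕ → ℂ} (h : IsNQ F) : Tendsto (vav fun n => mob n * F n) atTop (𝓝 0) := by
  obtain ⟨C, hC0, hC⟩ := h.bdd
  obtain ⟨q, hq, h1⟩ := h
  refine vav_of_residues hC0 (fun n => ?_) hq fun r hr => (h1 r).mob hq hr
  rw [norm_mul]
  calc _ ≤ 1 * C := by
        gcongr
        · exact norm_mob_le _
        · exact hC n
    _ = C := one_mul C

end Pool.Agent.P8H24.NU
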