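import Mathlib
import Pool.Agent.Helper28.LCN.Seq
import Pool.Agent.Helper28.LCN.LcsComm

/-!
# Polynomial sequences in nilpotent groups

`RR D f` (library): all `D`-fold differences of `f : ℤ → G` are trivial.
-/

set_option autoImplicit false

namespace Pool.Agent.P8H24.NU

open Pool.Agent.Helper28.LCN
open scoped commutatorElement

variable {G : Type} [Group G]

/-- polynomial sequences -/
def IsPoly (f : ℤ → G) : Prop := ∃ D, RR D f

theorem RR_of_one (D : ℕ) : ∀ {f : ℤ → G}, (∀ n, f n = 1) → RR D f := by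
  induction D with
  | zero => intro f h; exact h
  | succ D ih =>
    intro f h s
    refine ih fun n => ?_
    rw [dd, h, h, inv_one, mul_one]

theorem RR_succ (D : ℕ) : ∀ {f : ℤ → G}, RR D f → RR (D + 1) f := by
  induction D with
  | zero =>
    intro f h
    exact RR_of_one 1 h
  | succ D ih =>
    intro f h s
    exact ih (h s)

theorem RR_mono {D E : ℕ} (hDE : D ≤ E) {f : ℤ → G} (h : RR D f) : RR E f := by
  induction hDE with
  | refl => exact h
  | step _ ih => exact RR_succ _ ih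

theorem RR_map {G' : Type} [Group G'] (φ : G →* G') (D : ℕ) : ∀ {f : ℤ → G}, RR D f →
    RR D (fun n => φ (f n)) := by
  induction D with
  | zero =>
    intro f h n
    have h1 : f n = 1 := h n
    show φ (f n) = 1
    rw [h1, map_one]
  | succ D ih =>
    intro f h s
    have h1 := ih (h s)
    have e : dd s (fun n => φ (f n)) = fun n => φ (dd s f n) := by
      funext n
      simp only [dd, map_mul, map_inv]
    rw [e]
    exact h1

theorem RR_of_map {G' : Type} [Group G'] (φ : G →* G') (hφ : Function.Injective φ) (D : ℕ) :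
    ∀ {f : ℤ → G}, RR D (fun n => φ (f n)) → RR D f := by
  induction D with
  | zero =>
    intro f h n
    apply hφ
    rw [map_one]
    exact h n
  | succ D ih =>
    intro f h s
    apply ih
    have h1 := h s
    have e : dd s (fun n => φ (f n)) = fun n => φ (dd s f n) := by
      funext n
      simp only [dd, map_mul, map_inv]
    rw [e] at h1
    exact h1

theorem RR_shift (t : ℤ) (D : ℕ) : ∀ {f : ℤ → G}, RR D f → RR D (fun n => f (n + t)) := by
  induction D with
  | zero => intro f h n; exact h _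
  | succ D ih =>
    intro f h s
    have h1 := ih (h s)
    have e : dd s (fun n => f (n + t)) = fun n => dd s f (n + t) := by
      funext n
      simp only [dd]
      rw [show n + s + t = n + t + s by ring]
    rw [e]
    exact h1

theorem RR_mul_const (c : G) (D : ℕ) {f : ℤ → G} (h : RR (D + 1) f) :
    RR (D + 1) (fun n => f n * c) := by
  intro s
  have e : dd s (fun n => f n * c) = dd s f := by
    funext n
    simp only [dd]
    group
  rw [e]
  exact h s

theorem RR_const (c : G) : RR 1 (fun _ : ℤ => c) := by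
  intro s n
  simp [dd]

/-- the filtration -/
def Fi (G : Type) [Group G] (D i : ℕ) : Subgroup G := (⊤ : Subgroup G).lowerCentralSeries ((i - 1) / D)

theorem Fi_anti (D i : ℕ) : Fi G D (i + 1) ≤ Fi G D i := by
  unfold Fi
  apply Subgroup.lowerCentralSeries_antitone
  exact Nat.div_le_div_right (by omega)

theorem Fi_comm {D : ℕ} (hD : 0 < D) (i j : ℕ) (a : G) (ha : a ∈ Fi G D i) (b : G)
    (hb : b ∈ Fi G D j) : ⁅a, b⁆ ∈ Fi G D (i + j) := by
  unfold Fi at *
  have h1 := lcs_comm (⊤ : Subgroup G) ((i - 1) / D) ((j - 1) / D)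
    (Subgroup.commutator_mem_commutator ha hb)
  refine Subgroup.lowerCentralSeries_antitone ⊤ ?_ h1
  have h2 : i - 1 < D * ((i - 1) / D + 1) := Nat.lt_mul_div_succ _ hD
  have h3 : j - 1 < D * ((j - 1) / D + 1) := Nat.lt_mul_div_succ _ hD
  rw [← Nat.lt_succ_iff, Nat.div_lt_iff_lt_mul hD]
  have h4 : ((i - 1) / D + (j - 1) / D + 1).succ * D = D * ((i - 1) / D + 1) + D * ((j - 1) / D + 1) := by
    rw [Nat.succ_eq_add_one]; ring
  rw [h4]
  omega

/-- polynomial with respect to a filtration -/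
def PolyF (Φ : ℕ → Subgroup G) (i : ℕ) (f : ℤ → G) : Prop := ∀ m, Q Φ m i f

theorem Q_of_one (Φ : ℕ → Subgroup G) (m : ℕ) : ∀ (i : ℕ) {f : ℤ → G}, (∀ n, f n = 1) → Q Φ m i f := by
  induction m with
  | zero => intro i f h n; rw [h]; exact one_mem _
  | succ m ih =>
    intro i f h
    refine ⟨fun n => by rw [h]; exact one_mem _, fun s => ih (i + 1) fun n => ?_⟩
    rw [dd, h, h, inv_one, mul_one]

theorem RR_PolyF {D : ℕ} (hD : 0 < D) (m : ℕ) : ∀ (j i : ℕ) {f : ℤ → G}, RR j f → i + j = D →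
    Q (Fi G D) m i f := by
  have htop : ∀ i, i ≤ D → Fi G D i = ⊤ := by
    intro i hi
    unfold Fi
    rw [Nat.div_eq_of_lt (by omega), Subgroup.lowerCentralSeries_zero]
  induction m with
  | zero =>
    intro j i f h hij n
    rw [htop i (by omega)]
    exact Subgroup.mem_top _
  | succ m ih =>
    intro j i f h hij
    cases j with
    | zero => exact Q_of_one _ _ _ h
    | succ j =>
      refine ⟨fun n => by rw [htop i (by omega)]; exact Subgroup.mem_top _, fun s => ?_⟩
      exact ih j (i + 1) (h s) (by omega)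

theorem RR_of_Q (Φ : ℕ → Subgroup G) (m : ℕ) : ∀ (i : ℕ) {f : ℤ → G}, Φ (i + m) = ⊥ → Q Φ m i f →
    RR m f := by
  induction m with
  | zero =>
    intro i f hΦ h n
    have h1 := h n
    rw [add_zero] at hΦ
    rw [hΦ, Subgroup.mem_bot] at h1
    exact h1
  | succ m ih =>
    intro i f hΦ h s
    exact ih (i + 1) (by rw [← hΦ]; congr 1; omega) (h.2 s)

theorem PolyF.mul {D : ℕ} (hD : 0 < D) {i : ℕ} {f g : ℤ → G} (hf : PolyF (Fi G D) i f)
    (hg : PolyF (Fi G D) i g) : PolyF (Fi G D) i (fun n => f n * g n) := fun m =>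
  (Q_all (Fi G D) (Fi_anti D) (fun i j a ha b hb => Fi_comm hD i j a ha b hb) m).1 i f g (hf m) (hg m)

theorem PolyF.inv {D : ℕ} (hD : 0 < D) {i : ℕ} {f : ℤ → G} (hf : PolyF (Fi G D) i f) :
    PolyF (Fi G D) i (fun n => (f n)⁻¹) := fun m =>
  (Q_all (Fi G D) (Fi_anti D) (fun i j a ha b hb => Fi_comm hD i j a ha b hb) m).2.1 i f (hf m)

theorem Q_shift (Φ : ℕ → Subgroup G) (t : ℤ) (m : ℕ) : ∀ (i : ℕ) {f : ℤ → G}, Q Φ m i f →
    Q Φ m i (fun n => f (n + t)) := by
  induction m with
  | zero => intro i f h n; exact h _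
  | succ m ih =>
    intro i f h
    refine ⟨fun n => h.1 _, fun s => ?_⟩
    have h1 := ih (i + 1) (h.2 s)
    have e : dd s (fun n => f (n + t)) = fun n => dd s f (n + t) := by
      funext n
      simp only [dd]
      rw [show n + s + t = n + t + s by ring]
    rw [e]
    exact h1

theorem PolyF.shift {Φ : ℕ → Subgroup G} {i : ℕ} {f : ℤ → G} (hf : PolyF Φ i f) (t : ℤ) :
    PolyF Φ i (fun n => f (n + t)) := fun m => Q_shift Φ t m i (hf m)

theorem Fi_bot [Group.IsNilpotent G] (D : ℕ) (hD : 0 < D) : ∃ M, ∀ i, M ≤ i → Fi G D i = ⊥ := by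
  obtain ⟨c, hc⟩ := Subgroup.nilpotent_iff_lowerCentralSeries.1 (inferInstance : Group.IsNilpotent G)
  refine ⟨D * c + 1, fun i hi => ?_⟩
  unfold Fi
  rw [eq_bot_iff, ← hc]
  apply Subgroup.lowerCentralSeries_antitone
  rw [Nat.le_div_iff_mul_le hD]
  have : c * D = D * c := mul_comm _ _
  omega

section nilp

variable [Group.IsNilpotent G]

omit [Group.IsNilpotent G] in
theorem IsPoly.exists_common {f g : ℤ → G} (hf : IsPoly f) (hg : IsPoly g) :
    ∃ D, 0 < D ∧ PolyF (Fi G D) 0 f ∧ PolyF (Fi G D) 0 g := by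
  obtain ⟨D, hD⟩ := hf
  obtain ⟨E, hE⟩ := hg
  refine ⟨D + E + 1, by omega, fun m => ?_, fun m => ?_⟩
  · exact RR_PolyF (by omega) m (D + E + 1) 0 (RR_mono (by omega) hD) (by omega)
  · exact RR_PolyF (by omega) m (D + E + 1) 0 (RR_mono (by omega) hE) (by omega)

theorem PolyF.isPoly {D : ℕ} (hD : 0 < D) {f : ℤ → G} (hf : PolyF (Fi G D) 0 f) : IsPoly f := by
  obtain ⟨M, hM⟩ := Fi_bot (G := G) D hD
  exact ⟨M, RR_of_Q (Fi G D) M 0 (hM _ (by omega)) (hf M)⟩

theorem IsPoly.mul {f g : ℤ → G} (hf : IsPoly f) (hg : IsPoly g) : IsPoly (fun n => f n * g n) := by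
  obtain ⟨D, hD, h1, h2⟩ := hf.exists_common hg
  exact (h1.mul hD h2).isPoly hD

theorem IsPoly.inv {f : ℤ → G} (hf : IsPoly f) : IsPoly (fun n => (f n)⁻¹) := by
  obtain ⟨D, hD, h1, -⟩ := hf.exists_common hf
  exact (h1.inv hD).isPoly hD

omit [Group.IsNilpotent G] in
theorem IsPoly.const (c : G) : IsPoly (fun _ : ℤ => c) := ⟨1, RR_const c⟩

omit [Group.IsNilpotent G] in
theorem IsPoly.shift {f : ℤ → G} (hf : IsPoly f) (t : ℤ) : IsPoly (fun n => f (n + t)) := by
  obtain ⟨D, hD⟩ := hf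
  exact ⟨D, RR_shift t D hD⟩

omit [Group.IsNilpotent G] in
theorem IsPoly.dilate {f : ℤ → G} (hf : IsPoly f) (r : ℕ) : IsPoly (fun n => f (r * n)) := by
  obtain ⟨D, hD⟩ := hf
  exact ⟨D, RR_dilate r D f hD⟩

omit [Group.IsNilpotent G] in
theorem IsPoly.map {G' : Type} [Group G'] (φ : G →* G') {f : ℤ → G} (hf : IsPoly f) :
    IsPoly (fun n => φ (f n)) := by
  obtain ⟨D, hD⟩ := hf
  exact ⟨D, RR_map φ D hD⟩

omit [Group.IsNilpotent G] in
theorem IsPoly.lift {G' : Type} [Group G'] (φ : G →* G') (hφ : Function.Injective φ) {f : ℤ → G}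
    (hf : IsPoly (fun n => φ (f n))) : IsPoly f := by
  obtain ⟨D, hD⟩ := hf
  exact ⟨D, RR_of_map φ hφ D hD⟩

omit [Group.IsNilpotent G] in
theorem IsPoly.affine {f : ℤ → G} (hf : IsPoly f) (r : ℕ) (t : ℤ) :
    IsPoly (fun n => f (r * n + t)) := (hf.shift t).dilate r

/-- products of the values of a polynomial sequence are polynomial sequences -/
theorem isPoly_of_dd {F h : ℤ → G} (hF : ∀ n, F (n + 1) = h n * F n) (hh : IsPoly h) :
    IsPoly F := by
  obtain ⟨D, hD, h1, -⟩ := hh.exists_common hh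
  obtain ⟨M, hM⟩ := Fi_bot (G := G) D hD
  have hnat : ∀ s : ℕ, PolyF (Fi G D) 0 (dd s F) := by
    intro s
    induction s with
    | zero =>
      intro m
      refine Q_of_one _ _ _ fun n => ?_
      simp [dd]
    | succ s ih =>
      have h2 := (h1.shift (s : ℤ)).mul hD ih
      have e : dd ((s + 1 : ℕ) : ℤ) F = fun n => h (n + s) * dd (s : ℤ) F n := by
        funext n
        simp only [dd]
        push_cast
        rw [← add_assoc, hF]
        group
      rw [e]
      exact h2
  refine ⟨M + 1, fun s => ?_⟩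
  refine RR_of_Q (Fi G D) M 0 (hM _ (by omega)) ?_
  rcases le_total 0 s with hs | hs
  · obtain ⟨k, rfl⟩ := Int.eq_ofNat_of_zero_le hs
    exact hnat k M
  · obtain ⟨k, hk⟩ := Int.eq_ofNat_of_zero_le (neg_nonneg.2 hs)
    have hs' : s = -(k : ℤ) := by omega
    subst hs'
    have h2 := ((hnat k).shift (-(k : ℤ))).inv hD
    have e : dd (-(k : ℤ)) F = fun n => (dd (k : ℤ) F (n + -(k : ℤ)))⁻¹ := by
      funext n
      simp only [dd]
      rw [show n + -(k : ℤ) + (k : ℤ) = n by ring]
      group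
    rw [e]
    exact h2 M

end nilp

/-- the sequence with given differences -/
theorem exists_psum (h : ℤ → G) : ∃ F : ℤ → G, F 0 = 1 ∧ ∀ n, F (n + 1) = h n * F n := by
  let P : ℕ → G := fun n => Nat.rec 1 (fun k x => h k * x) n
  let N : ℕ → G := fun n => Nat.rec 1 (fun k x => (h (-(k : ℤ) - 1))⁻¹ * x) n
  refine ⟨fun n => if 0 ≤ n then P n.toNat else N (-n).toNat, by simp [P], fun n => ?_⟩
  rcases lt_trichotomy n (-1) with h1 | h1 | h1
  · obtain ⟨k, hk⟩ : ∃ k : ℕ, n = -(k : ℤ) - 2 := ⟨(-n - 2).toNat, by omega⟩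
    subst hk
    have e1 : ¬ (0 : ℤ) ≤ -(k : ℤ) - 2 + 1 := by omega
    have e2 : ¬ (0 : ℤ) ≤ -(k : ℤ) - 2 := by omega
    simp only [e1, e2, if_false]
    have e3 : (-(-(k : ℤ) - 2 + 1)).toNat = k + 1 := by omega
    have e4 : (-(-(k : ℤ) - 2)).toNat = k + 1 + 1 := by omega
    rw [e3, e4]
    show N (k + 1) = h (-(k : ℤ) - 2) * ((h (-((k + 1 : ℕ) : ℤ) - 1))⁻¹ * N (k + 1))
    rw [show -((k + 1 : ℕ) : ℤ) - 1 = -(k : ℤ) - 2 by push_cast; ring]
    group
  · subst h1
    simp only [P, N]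
    norm_num
  · obtain ⟨k, hk⟩ : ∃ k : ℕ, n = (k : ℤ) := ⟨n.toNat, by omega⟩
    subst hk
    have e1 : (0 : ℤ) ≤ (k : ℤ) + 1 := by omega
    have e2 : (0 : ℤ) ≤ (k : ℤ) := by omega
    simp only [e1, e2, if_true]
    have e3 : ((k : ℤ) + 1).toNat = k + 1 := by omega
    have e4 : ((k : ℤ)).toNat = k := by omega
    rw [e3, e4]

/-- a polynomial sequence with values in a subgroup at `0, …, D - 1` has values in the subgroup -/
theorem RR_mem (S : Subgroup G) (D : ℕ) : ∀ {f : ℤ → G}, RR D f → (∀ j : ℕ, j < D → f j ∈ S) →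
    ∀ n, f n ∈ S := by
  induction D with
  | zero =>
    intro f h _ n
    have h1 : f n = 1 := h n
    rw [h1]
    exact one_mem _
  | succ D ih =>
    intro f h h0 n
    have h1 := ih (h 1) (by
      intro j hj
      have e1 := h0 j (by omega)
      have e2 := h0 (j + 1) (by omega)
      push_cast at e2
      exact S.mul_mem e2 (S.inv_mem e1))
    have hs : ∀ n, f (n + 1) = dd 1 f n * f n := by
      intro n
      simp only [dd]
      group
    have h00 : f 0 ∈ S := by
      have := h0 0 (by omega)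
      simpa using this
    induction n using Int.induction_on with
    | zero => exact h00
    | succ k ihk => rw [hs]; exact S.mul_mem (h1 _) ihk
    | pred k ihk =>
      have h2 := hs (-(k : ℤ) - 1)
      rw [sub_add_cancel] at h2
      have h3 : f (-(k : ℤ) - 1) = (dd 1 f (-(k : ℤ) - 1))⁻¹ * f (-(k : ℤ)) := by
        rw [h2]; group
      rw [h3]
      exact S.mul_mem (S.inv_mem (h1 _)) ihk

/-- the group generated by the values of a polynomial sequence is finitely generated -/
theorem IsPoly.fg {f : ℤ → G} (hf : IsPoly f) : (Subgroup.closure (Set.range f)).FG := by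
  classical
  obtain ⟨D, hD⟩ := hf
  refine ⟨(Finset.range D).image fun j : ℕ => f j, ?_⟩
  apply le_antisymm
  · rw [Subgroup.closure_le]
    intro x hx
    simp only [Finset.coe_image, Set.mem_image] at hx
    obtain ⟨j, -, rfl⟩ := hx
    exact Subgroup.subset_closure ⟨_, rfl⟩
  · rw [Subgroup.closure_le]
    rintro _ ⟨n, rfl⟩
    refine RR_mem _ D hD (fun j hj => Subgroup.subset_closure ?_) n
    simp only [Finset.coe_image, Set.mem_image]
    exact ⟨j, by simpa using hj, rfl⟩

end Pool.Agent.P8H24.NU
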