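import Pool.Agent.P8H24.NU.Poly
import Pool.Agent.Helper277.Solv2
import Pool.Agent.Helper111.EN.Basic
import Pool.Agent.TH261.AB.Proj

/-!
# Polynomial sequences modulo isolated subgroups of nilpotent groups
-/

set_option autoImplicit false

namespace Pool.Agent.P8H24.NU

open Pool.Agent.Helper28.LCN
open Pool.Agent.TH261.AB (Top)
open scoped commutatorElement

section abelian

variable {A : Type} [AddCommGroup A]

theorem Top_unique (k : ℕ) : ∀ {f : ℕ → A} {b b' : A}, Top k f b → Top k f b' → b = b' := by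
  induction k with
  | zero => intro f b b' h h'; rw [← h 0, ← h' 0]
  | succ k ih => intro f b b' h h'; exact ih (f := fun n => f (n + 1) - f n) h h'

theorem Top_drop (k : ℕ) : ∀ {f : ℕ → A}, Top (k + 1) f 0 → ∃ b, Top k f b := by
  induction k with
  | zero =>
    intro f h
    refine ⟨f 0, fun n => ?_⟩
    induction n with
    | zero => rfl
    | succ n ih =>
      have h1 : f (n + 1) - f n = 0 := h n
      rw [← ih]
      exact sub_eq_zero.1 h1
  | succ k ih =>
    intro f h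
    obtain ⟨b, hb⟩ := ih (f := fun n => f (n + 1) - f n) h
    exact ⟨b, hb⟩

theorem Top_const (k : ℕ) (c : A) : Top (k + 1) (fun _ : ℕ => c) 0 := by
  show Pool.Agent.TH261.AB.Top k (fun _ : ℕ => c - c) 0
  simp only [sub_self]
  exact Pool.Agent.TH261.AB.Top.zero

theorem dilate_nat (htf : ∀ (a : A) (n : ℕ), 0 < n → n • a = 0 → a = 0) (k : ℕ) :
    ∀ {f : ℕ → A} {b : A}, Top k f b → ∀ {p q t t' : ℕ}, p ≠ q → ∀ c : A,
      (∀ l : ℕ, f (p * l + t) - f (q * l + t') = c) → ∀ n, f n = f 0 := by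
  induction k with
  | zero => intro f b hb p q t t' _ c _ n; rw [hb n, hb 0]
  | succ k ih =>
    intro f b hb p q t t' hpq c hc
    have h1 := ((hb.shift t).dilate p).sub ((hb.shift t').dilate q)
    simp only [hc] at h1
    have h2 := Top_unique _ h1 (Top_const k c)
    have hz : ((p : ℤ) ^ (k + 1) - (q : ℤ) ^ (k + 1) : ℤ) ≠ 0 := by
      intro h
      apply hpq
      have h2 : p ^ (k + 1) = q ^ (k + 1) := by
        have : (p : ℤ) ^ (k + 1) = (q : ℤ) ^ (k + 1) := by linarith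
        exact_mod_cast this
      exact Nat.pow_left_injective (by omega : k + 1 ≠ 0) h2
    have h3 : ((p : ℤ) ^ (k + 1) - (q : ℤ) ^ (k + 1) : ℤ) • b = 0 := by
      rw [sub_smul, ← h2]
      congr 1
      · rw [← Nat.cast_pow, natCast_zsmul]
      · rw [← Nat.cast_pow, natCast_zsmul]
    have h4 : ((p : ℤ) ^ (k + 1) - (q : ℤ) ^ (k + 1) : ℤ).natAbs • b = 0 := by
      rcases Int.natAbs_eq ((p : ℤ) ^ (k + 1) - (q : ℤ) ^ (k + 1) : ℤ) with h5 | h5
      · rw [h5, natCast_zsmul] at h3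
        exact h3
      · rw [h5, neg_smul, natCast_zsmul, neg_eq_zero] at h3
        exact h3
    have h5 := htf b _ (Int.natAbs_pos.2 hz) h4
    subst h5
    obtain ⟨b', hb'⟩ := Top_drop k hb
    exact ih hb' hpq c hc

end abelian

theorem RR_top {A : Type} [CommGroup A] (D : ℕ) : ∀ {f : ℤ → A}, RR (D + 1) f →
    ∃ b, Top D (fun n : ℕ => Additive.ofMul (f n)) b := by
  induction D with
  | zero =>
    intro f h
    refine ⟨Additive.ofMul (f 0), fun n => ?_⟩
    have h1 := dd_one_const (f := f) (c := 1) (fun n => h 1 n) n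
    show Additive.ofMul (f n) = Additive.ofMul (f 0)
    rw [h1, one_zpow, one_mul]
  | succ D ih =>
    intro f h
    obtain ⟨b, hb⟩ := ih (h 1)
    refine ⟨b, ?_⟩
    show Pool.Agent.TH261.AB.Top D (fun n : ℕ => Additive.ofMul (f ((n + 1 : ℕ) : ℤ)) -
      Additive.ofMul (f n)) b
    convert hb using 2 with n
    rw [dd, ← div_eq_mul_inv, ofMul_div]
    push_cast
    rfl

theorem eq_of_nat {G : Type} [Group G] {F : ℤ → G} (hF : IsPoly F) (h : ∀ n : ℕ, F n = F 0) :
    ∀ n, F n = F 0 := by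
  obtain ⟨D, hD⟩ := hF
  have h1 := RR_mul_const (F 0)⁻¹ D (RR_succ D hD)
  have h2 := zeros_init (D + 1) _ h1 (fun j _ => by rw [h j, mul_inv_cancel])
  intro n
  exact mul_inv_eq_one.1 (h2 n)

theorem dilate_comm {A : Type} [CommGroup A] (htf : ∀ (a : A) (n : ℕ), 0 < n → a ^ n = 1 → a = 1)
    {F : ℤ → A} (hF : IsPoly F) {p q t t' : ℕ} (hpq : p ≠ q) (c : A)
    (h : ∀ l : ℤ, F (p * l + t) * (F (q * l + t'))⁻¹ = c) : ∀ n, F n = F 0 := by
  refine eq_of_nat hF ?_
  obtain ⟨D, hD⟩ := hF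
  obtain ⟨b, hb⟩ := RR_top D (RR_succ D hD)
  have h1 := dilate_nat (A := Additive A) (fun a n hn ha => htf a.toMul n hn (by
    exact congrArg Additive.toMul ha)) D hb (p := p) (q := q) (t := t) (t' := t') hpq (Additive.ofMul c) (by
      intro l
      have e := h l
      rw [← ofMul_div, div_eq_mul_inv, ← e]
      push_cast
      rfl)
  intro n
  have := h1 n
  simpa using this

theorem dilate_const {Q : Type} [Group Q] [Group.IsNilpotent Q] :
    (∀ (g : Q) (n : ℕ), 0 < n → g ^ n = 1 → g = 1) → ∀ (F : ℤ → Q), IsPoly F →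
      ∀ (p q t t' : ℕ), p ≠ q → ∀ c : Q, (∀ l : ℤ, F (p * l + t) * (F (q * l + t'))⁻¹ = c) →
        ∀ n, F n = F 0 := by
  refine Group.nilpotent_center_quotient_ind (P := fun Q _ _ =>
    (∀ (g : Q) (n : ℕ), 0 < n → g ^ n = 1 → g = 1) → ∀ (F : ℤ → Q), IsPoly F →
      ∀ (p q t t' : ℕ), p ≠ q → ∀ c : Q, (∀ l : ℤ, F (p * l + t) * (F (q * l + t'))⁻¹ = c) →
        ∀ n, F n = F 0) Q ?_ ?_
  · intro G _ _ _ F _ p q t t' _ c _ n
    exact Subsingleton.elim _ _
  · intro G _ _ ih htf F hF p q t t' hpq c hc n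
    have htf' : ∀ (g : G ⧸ Subgroup.center G) (n : ℕ), 0 < n → g ^ n = 1 → g = 1 := by
      intro g n hn hg
      obtain ⟨x, rfl⟩ := QuotientGroup.mk'_surjective (Subgroup.center G) g
      rw [← map_pow, ← MonoidHom.mem_ker, QuotientGroup.ker_mk'] at hg
      have := Pool.Agent.Helper111.EN.center_root n (fun x hx => htf x n hn hx) x hg
      rw [← MonoidHom.mem_ker, QuotientGroup.ker_mk']
      exact this
    have h1 := ih htf' (fun n => QuotientGroup.mk' (Subgroup.center G) (F n)) (hF.map _) p q t t' hpq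
      (QuotientGroup.mk' (Subgroup.center G) c) (by
        intro l
        rw [← map_inv, ← map_mul, hc])
    have h2 : ∀ n, F n * (F 0)⁻¹ ∈ Subgroup.center G := by
      intro n
      have h3 : QuotientGroup.mk' (Subgroup.center G) (F n) =
        QuotientGroup.mk' (Subgroup.center G) (F 0) := h1 n
      rw [← QuotientGroup.ker_mk' (Subgroup.center G), MonoidHom.mem_ker, map_mul, map_inv, h3,
        mul_inv_cancel]
    have hcen : ∀ x y : Subgroup.center G, x * y = y * x := fun x y => by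
      apply Subtype.ext
      exact (Subgroup.mem_center_iff.1 x.2 y).symm
    let _ : CommGroup (Subgroup.center G) := { (inferInstance : Group (Subgroup.center G)) with
      mul_comm := hcen }
    set z : ℤ → Subgroup.center G := fun n => ⟨F n * (F 0)⁻¹, h2 n⟩ with hz
    have hzp : IsPoly z := by
      apply IsPoly.lift (Subgroup.center G).subtype (Subgroup.subtype_injective _)
      obtain ⟨D, hD⟩ := hF
      exact ⟨D + 1, RR_mul_const _ D (RR_succ D hD)⟩
    have h4 := dilate_comm (A := Subgroup.center G) (fun a n hn ha => by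
      apply Subtype.ext
      have := congrArg Subtype.val ha
      exact htf a.1 n hn this) hzp hpq (z t * (z t')⁻¹) (by
        intro l
        apply Subtype.ext
        have e := hc l
        have e0 := hc 0
        rw [mul_zero, mul_zero, zero_add, zero_add] at e0
        show F (p * l + t) * (F 0)⁻¹ * (F (q * l + t') * (F 0)⁻¹)⁻¹ =
          F t * (F 0)⁻¹ * (F t' * (F 0)⁻¹)⁻¹
        have e1 : ∀ a b : G, a * (F 0)⁻¹ * (b * (F 0)⁻¹)⁻¹ = a * b⁻¹ := by intro a b; group
        rw [e1, e1, e, e0])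
    have h5 := congrArg Subtype.val (h4 n)
    have h6 : F n * (F 0)⁻¹ = F 0 * (F 0)⁻¹ := h5
    exact mul_right_cancel h6

/-! ### the chain of normalizers -/

variable {G : Type} [Group G]

/-- isolated subgroups -/
def Iso (T : Subgroup G) : Prop := ∀ (g : G) (k : ℕ), 1 ≤ k → g ^ k ∈ T → g ∈ T

/-- the chain of normalizers -/
def Kc (T : Subgroup G) : ℕ → Subgroup G
  | 0 => T
  | i + 1 => Subgroup.normalizer (Kc T i : Set G)

theorem Kc_le_succ (T : Subgroup G) (i : ℕ) : Kc T i ≤ Kc T (i + 1) := Subgroup.le_normalizer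

theorem Kc_mono (T : Subgroup G) {i j : ℕ} (h : i ≤ j) : Kc T i ≤ Kc T j := by
  induction h with
  | refl => exact le_rfl
  | step _ ih => exact ih.trans (Kc_le_succ T _)

theorem ucs_le_Kc (T : Subgroup G) (i : ℕ) : Subgroup.upperCentralSeries G i ≤ Kc T i := by
  induction i with
  | zero => rw [Subgroup.upperCentralSeries_zero]; exact bot_le
  | succ i ih =>
    intro x hx
    rw [Subgroup.mem_upperCentralSeries_succ_iff] at hx
    show x ∈ Subgroup.normalizer (Kc T i : Set G)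
    rw [Subgroup.mem_normalizer_iff]
    intro h
    have h1 : ⁅x, h⁆ ∈ Kc T i := ih (hx h)
    have e : x * h * x⁻¹ = ⁅x, h⁆ * h := by rw [commutatorElement_def]; group
    rw [e]
    exact ⟨fun hh => mul_mem h1 hh, fun hh => (Subgroup.mul_mem_cancel_left _ h1).1 hh⟩

theorem exists_Kc_top [Group.IsNilpotent G] (T : Subgroup G) : ∃ r, Kc T r = ⊤ := by
  obtain ⟨r, hr⟩ := (inferInstance : Group.IsNilpotent G).nilpotent'
  exact ⟨r, eq_top_iff.2 (hr ▸ ucs_le_Kc T r)⟩

theorem Iso.normalizer [Group.IsNilpotent G] {T : Subgroup G} (hT : Iso T) :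
    Iso (Subgroup.normalizer (T : Set G)) := by
  intro x k hk hx
  have h1 := ConradSol.normalizer_isolated T hT x k hk (by
    intro b hb
    have h2 := Subgroup.mem_normalizer_iff.1 hx b
    have h3 := Subgroup.mem_normalizer_iff''.1 hx b
    exact ⟨h2.1 hb, h3.1 hb⟩)
  rw [Subgroup.mem_normalizer_iff]
  intro b
  refine ⟨fun hb => (h1 b hb).1, fun hb => ?_⟩
  have := (h1 _ hb).2
  have e : x⁻¹ * (x * b * x⁻¹) * x = b := by group
  rwa [e] at this

theorem Iso.Kc [Group.IsNilpotent G] {T : Subgroup G} (hT : Iso T) (i : ℕ) : Iso (Kc T i) := by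
  induction i with
  | zero => exact hT
  | succ i ih => exact ih.normalizer

/-- the quotient of two consecutive terms -/
abbrev KQ (T : Subgroup G) (i : ℕ) : Type :=
  ↥(Subgroup.normalizer (Kc T i : Set G)) ⧸
    ((Kc T i).subgroupOf (Subgroup.normalizer (Kc T i : Set G)))

theorem KQ_tf {T : Subgroup G} {i : ℕ} (hT : Iso (Kc T i)) (g : KQ T i) (n : ℕ)
    (hn : 0 < n) (hg : g ^ n = 1) : g = 1 := by
  obtain ⟨x, rfl⟩ := QuotientGroup.mk'_surjective _ g
  rw [← map_pow, ← MonoidHom.mem_ker, QuotientGroup.ker_mk'] at hg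
  rw [← MonoidHom.mem_ker, QuotientGroup.ker_mk']
  rw [Subgroup.mem_subgroupOf] at hg ⊢
  exact hT _ n hn hg

/-- descent along the chain -/
theorem descend [Group.IsNilpotent G] (T : Subgroup G) (F : ℤ → G)
    (step : ∀ i, (∀ n, F n * (F 0)⁻¹ ∈ Kc T (i + 1)) → ∀ n, F n * (F 0)⁻¹ ∈ Kc T i) :
    ∀ n, F n * (F 0)⁻¹ ∈ T := by
  obtain ⟨r, hr⟩ := exists_Kc_top T
  have key : ∀ j, j ≤ r → ∀ n, F n * (F 0)⁻¹ ∈ Kc T (r - j) := by
    intro j
    induction j with
    | zero => intro _ n; rw [Nat.sub_zero, hr]; exact Subgroup.mem_top _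
    | succ j ih =>
      intro hj
      refine step (r - (j + 1)) ?_
      have := ih (by omega)
      rwa [show r - j = r - (j + 1) + 1 by omega] at this
  have := key r le_rfl
  rwa [Nat.sub_self] at this

/-- the image of the sequence in the quotient -/
theorem KQ_seq {T : Subgroup G} {i : ℕ} {F : ℤ → G} (hF : IsPoly F)
    (h : ∀ n, F n * (F 0)⁻¹ ∈ Kc T (i + 1)) :
    ∃ k : ℤ → KQ T i, IsPoly k ∧ k 0 = 1 ∧ (∀ n, k n = 1 → F n * (F 0)⁻¹ ∈ Kc T i) ∧
      ∀ a b a' b' : ℤ, (F a * (F b)⁻¹) * (F a' * (F b')⁻¹)⁻¹ ∈ Kc T i →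
        k a * (k b)⁻¹ = k a' * (k b')⁻¹ := by
  set N : Subgroup ↥(Subgroup.normalizer (Kc T i : Set G)) :=
    (Kc T i).subgroupOf (Subgroup.normalizer (Kc T i : Set G)) with hN
  set s : ℤ → ↥(Subgroup.normalizer (Kc T i : Set G)) := fun n => ⟨F n * (F 0)⁻¹, h n⟩ with hs
  have hsp : IsPoly s := by
    apply IsPoly.lift (Subgroup.normalizer (Kc T i : Set G)).subtype (Subgroup.subtype_injective _)
    obtain ⟨D, hD⟩ := hF
    exact ⟨D + 1, RR_mul_const _ D (RR_succ D hD)⟩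
  refine ⟨fun n => QuotientGroup.mk' N (s n), hsp.map _, ?_, ?_, ?_⟩
  · have : s 0 = 1 := Subtype.ext (mul_inv_cancel (F 0))
    show QuotientGroup.mk' N (s 0) = 1
    rw [this, map_one]
  · intro n hn
    rw [← MonoidHom.mem_ker, QuotientGroup.ker_mk'] at hn
    exact Subgroup.mem_subgroupOf.1 hn
  · intro a b a' b' hab
    have h1 : (s a * (s b)⁻¹) * (s a' * (s b')⁻¹)⁻¹ ∈ N := by
      rw [hN, Subgroup.mem_subgroupOf]
      show F a * (F 0)⁻¹ * (F b * (F 0)⁻¹)⁻¹ * (F a' * (F 0)⁻¹ * (F b' * (F 0)⁻¹)⁻¹)⁻¹ ∈ Kc T i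
      have e1 : ∀ a b : G, a * (F 0)⁻¹ * (b * (F 0)⁻¹)⁻¹ = a * b⁻¹ := by intro a b; group
      rw [e1, e1]
      exact hab
    rw [← QuotientGroup.ker_mk' N, MonoidHom.mem_ker, map_mul, map_inv, mul_inv_eq_one] at h1
    rw [← map_inv, ← map_mul, h1, map_mul, map_inv]

theorem dilate_iso [Group.IsNilpotent G] {T : Subgroup G} (hT : Iso T) {F : ℤ → G} (hF : IsPoly F)
    {p q t t' : ℕ} (hpq : p ≠ q)
    (h : ∀ l : ℤ, (F (p * l + t) * (F (q * l + t'))⁻¹) * (F t * (F t')⁻¹)⁻¹ ∈ T) :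
    ∀ n, F n * (F 0)⁻¹ ∈ T := by
  refine descend T F fun i hi => ?_
  obtain ⟨k, hk, hk0, hk1, hk2⟩ := KQ_seq hF hi
  have hnil : Group.IsNilpotent (KQ T i) := inferInstance
  have h1 := dilate_const (Q := KQ T i) (fun g n hn hg => KQ_tf (hT.Kc i) g n hn hg) k hk p q t t'
    hpq (k t * (k t')⁻¹) (fun l => hk2 _ _ _ _ (Kc_mono T (Nat.zero_le i) (h l)))
  intro n
  exact hk1 n (by rw [h1 n, hk0])

theorem periodic_iso [Group.IsNilpotent G] {T : Subgroup G} (hT : Iso T) {F : ℤ → G} (hF : IsPoly F)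
    {r : ℕ} (hr : 0 < r) (h : ∀ l : ℤ, F (l + r) * (F l)⁻¹ ∈ T) :
    ∀ n, F n * (F 0)⁻¹ ∈ T := by
  refine descend T F fun i hi => ?_
  obtain ⟨k, hk, hk0, hk1, hk2⟩ := KQ_seq hF hi
  obtain ⟨D, hD⟩ := hk
  have h1 := periodic_const (G := KQ T i) (fun g n hn hg => KQ_tf (hT.Kc i) g n hn hg) D k hD r hr (by
    intro l
    have h2 := hk2 (l + r) l l l (by
      rw [mul_inv_cancel, inv_one, mul_one]
      exact Kc_mono T (Nat.zero_le i) (h l))
    rw [mul_inv_cancel] at h2
    exact mul_inv_eq_one.1 h2)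
  intro n
  exact hk1 n (by rw [h1 n, hk0])

end Pool.Agent.P8H24.NU
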