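import Pool.Agent.P8H24.NU.Mix
import Pool.Agent.P8H24.NU.Tf

/-!
# Pure vectors
-/

set_option autoImplicit false

open Finset Filter Topology

namespace Pool.Agent.P8H24.NU

variable {G : Type} [Group G]
variable {H : Type*} [NormedAddCommGroup H] [InnerProductSpace ℂ H] [CompleteSpace H]
variable (π : G →* (H ≃ₗᵢ[ℂ] H))

/-- the vectors of type `T` -/
noncomputable def PS (T : Subgroup G) : Submodule ℂ H :=
  CptS π T ⊓ ⨅ u : {u : G // u ∈ Subgroup.normalizer (T : Set G) ∧ u ∉ T},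
    (CptS π (Ext T u.1 u.2.1))ᗮ

omit [CompleteSpace H] in
theorem mem_PS {T : Subgroup G} {ξ : H} : ξ ∈ PS π T ↔ ξ ∈ CptS π T ∧
    ∀ (u : G) (hu : u ∈ Subgroup.normalizer (T : Set G)), u ∉ T → ξ ∈ (CptS π (Ext T u hu))ᗮ := by
  unfold PS
  rw [Submodule.mem_inf, Submodule.mem_iInf]
  constructor
  · rintro ⟨h1, h2⟩
    exact ⟨h1, fun u hu hu' => h2 ⟨u, hu, hu'⟩⟩
  · rintro ⟨h1, h2⟩
    exact ⟨h1, fun u => h2 u.1 u.2.1 u.2.2⟩

/-- the span of the pure vectors is dense -/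
theorem pure_dense (hwf : WellFoundedGT (Subgroup G)) :
    (⨆ T : Subgroup G, PS π T).topologicalClosure = ⊤ := by
  set E := (⨆ T : Subgroup G, PS π T).topologicalClosure with hE
  have hEc : IsClosed (E : Set H) := Submodule.isClosed_topologicalClosure _
  have key : ∀ T : Subgroup G, CptS π T ≤ E := by
    intro T
    induction T using hwf.wf.induction with
    | _ T ih =>
      set M := (⨆ u : {u : G // u ∈ Subgroup.normalizer (T : Set G) ∧ u ∉ T},
        CptS π (Ext T u.1 u.2.1)) with hM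
      have hME : M ≤ E := iSup_le fun u => ih _ (lt_Ext u.2.1 u.2.2)
      have hMT : M ≤ CptS π T := iSup_le fun u => CptS_mono π (le_Ext u.2.1)
      have hcE : M.topologicalClosure ≤ E := Submodule.topologicalClosure_minimal _ hME hEc
      have hcT : M.topologicalClosure ≤ CptS π T :=
        Submodule.topologicalClosure_minimal _ hMT (CptS_closed π T)
      intro ξ hξ
      have : CompleteSpace M.topologicalClosure :=
        (Submodule.isClosed_topologicalClosure M).completeSpace_coe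
      obtain ⟨a, ha, b, hb, h⟩ := M.topologicalClosure.exists_add_mem_mem_orthogonal ξ
      have hbT : b ∈ CptS π T := by
        have : b = ξ - a := by rw [h]; abel
        rw [this]
        exact Submodule.sub_mem _ hξ (hcT ha)
      have hbP : b ∈ PS π T := by
        rw [mem_PS]
        refine ⟨hbT, fun u hu hu' => ?_⟩
        refine Submodule.orthogonal_le ?_ hb
        refine le_trans ?_ (Submodule.le_topologicalClosure M)
        exact le_iSup (fun u : {u : G // u ∈ Subgroup.normalizer (T : Set G) ∧ u ∉ T} =>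
          CptS π (Ext T u.1 u.2.1)) ⟨u, hu, hu'⟩
      rw [h]
      exact Submodule.add_mem _ (hcE ha) (Submodule.le_topologicalClosure _
        (le_iSup (fun T => PS π T) T hbP))
  rw [eq_top_iff, ← CptS_bot π]
  exact key ⊥

omit [CompleteSpace H] in
theorem PS_inv {T : Subgroup G} {t : G} (ht : t ∈ T) {ξ : H} (hξ : ξ ∈ PS π T) :
    π t ξ ∈ PS π T := by
  rw [mem_PS] at hξ ⊢
  refine ⟨CptS_norm π (Subgroup.le_normalizer ht) hξ.1, fun u hu hu' => ?_⟩
  have h1 := hξ.2 u hu hu'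
  exact orth_norm π (Subgroup.le_normalizer (le_Ext hu ht)) h1

omit [CompleteSpace H] in
/-- if there is a nonzero vector of type `T`, then `N(T) / T` is torsion-free -/
theorem PS_tf {T : Subgroup G} {ξ : H} (hξ : ξ ∈ PS π T) (h0 : ξ ≠ 0) {u : G}
    (hu : u ∈ Subgroup.normalizer (T : Set G)) {n : ℕ} (hn : 1 ≤ n) (h : u ^ n ∈ T) : u ∈ T := by
  by_contra hu'
  rw [mem_PS] at hξ
  have h1 := CptS_Ext_of_pow π hu hn h hξ.1
  have h2 := (Submodule.mem_orthogonal _ _).1 (hξ.2 u hu hu') ξ h1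
  rw [inner_self_eq_zero] at h2
  exact h0 h2

omit [CompleteSpace H] in
/-- and `T` is isolated -/
theorem PS_iso [Group.IsNilpotent G] {T : Subgroup G} {ξ : H} (hξ : ξ ∈ PS π T) (h0 : ξ ≠ 0) :
    Iso T := by
  obtain ⟨I, hI⟩ := ConradSol.exists_isolator T
  have hTI : T ≤ I := fun t ht => (hI t).2 ⟨1, le_rfl, by rwa [pow_one]⟩
  have hT : T.subgroupOf I = ⊤ := by
    by_contra hne
    have h1 := Group.normalizerCondition_of_isNilpotent (G := I) (T.subgroupOf I)
      (lt_top_iff_ne_top.2 hne)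
    obtain ⟨x, hx1, hx2⟩ := SetLike.exists_of_lt h1
    rw [Subgroup.mem_subgroupOf] at hx2
    apply hx2
    obtain ⟨k, hk, hxk⟩ := (hI x).1 x.2
    refine PS_tf π hξ h0 ?_ hk hxk
    rw [Subgroup.mem_normalizer_iff] at hx1 ⊢
    intro h
    constructor
    · intro hh
      have := (hx1 ⟨h, hTI hh⟩).1 (Subgroup.mem_subgroupOf.2 hh)
      exact Subgroup.mem_subgroupOf.1 this
    · intro hh
      have e : h = (x : G)⁻¹ * ((x : G) * h * (x : G)⁻¹) * x := by group
      have hI2 : h ∈ I := by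
        rw [e]
        exact mul_mem (mul_mem (inv_mem x.2) (hTI hh)) x.2
      have := (hx1 ⟨h, hI2⟩).2 (Subgroup.mem_subgroupOf.2 hh)
      exact Subgroup.mem_subgroupOf.1 this
  intro g k hk hg
  have h2 : g ∈ I := (hI g).2 ⟨k, hk, hg⟩
  have h3 : (⟨g, h2⟩ : I) ∈ T.subgroupOf I := by rw [hT]; exact Subgroup.mem_top _
  exact Subgroup.mem_subgroupOf.1 h3

/-- vectors of type `T` are weakly mixing for the elements of `N(T)` -/
theorem wm_norm {T : Subgroup G} {ξ : H} (hξ : ξ ∈ PS π T) {x : G}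
    (hx : x ∈ Subgroup.normalizer (T : Set G)) (hxT : x ∉ T) : ξ ∈ (EV π x)ᗮ := by
  rw [mem_PS] at hξ
  rw [mem_EV_orth]
  intro l ζ hl hζ
  obtain ⟨a, ha, b, hb, h⟩ := exists_comp π T ζ
  have h1 : π x a = l • a := comp_eig π hx ha hb (by rw [← h]; exact hζ)
  have h2 := CptS_Ext_of_eig π hx hl h1 ha
  rw [h, inner_add_left, (Submodule.mem_orthogonal _ _).1 (hξ.2 x hx hxT) a h2,
    (Submodule.mem_orthogonal' _ _).1 hb ξ hξ.1, add_zero]

/-- vectors of type `T` are weakly mixing for all the elements outside of `T` -/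
theorem wm_Kc [Group.IsNilpotent G] {T : Subgroup G} {ξ : H} (hξ : ξ ∈ PS π T) (h0 : ξ ≠ 0)
    (i : ℕ) : ∀ x ∈ Kc T (i + 1), x ∉ T → ξ ∈ (EV π x)ᗮ := by
  have hiso := PS_iso π hξ h0
  induction i with
  | zero =>
    intro x hx hxT
    exact wm_norm π hξ hx hxT
  | succ i ih =>
    intro x hx hxT
    by_cases hxi : x ∈ Kc T (i + 1)
    · exact ih x hxi hxT
    have hTK : ∀ k : ℕ, ∀ y ∈ T, x ^ k * y * (x ^ k)⁻¹ ∈ Kc T (i + 1) ∧
        (x ^ k)⁻¹ * y * x ^ k ∈ Kc T (i + 1) := by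
      intro k y hy
      have hxk : x ^ k ∈ Subgroup.normalizer (Kc T (i + 1) : Set G) := pow_mem hx k
      have hy' : y ∈ Kc T (i + 1) := Kc_mono T (Nat.zero_le _) hy
      exact ⟨(Subgroup.mem_normalizer_iff.1 hxk y).1 hy', (Subgroup.mem_normalizer_iff''.1 hxk y).1 hy'⟩
    refine wm_of_orth π fun k hk => ?_
    have hxk : x ^ k ∉ Subgroup.normalizer (T : Set G) := by
      intro hn
      have h1 : x ^ k ∈ Kc T (i + 1) := Kc_mono T (by omega : 1 ≤ i + 1) hn
      exact hxi (hiso.Kc (i + 1) x k hk h1)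
    have h2 : ∃ y ∈ T, x ^ k * y * (x ^ k)⁻¹ ∉ T ∨ (x ^ k)⁻¹ * y * x ^ k ∉ T := by
      by_contra hcon
      push Not at hcon
      apply hxk
      rw [Subgroup.mem_normalizer_iff]
      intro h
      refine ⟨fun hh => (hcon h hh).1, fun hh => ?_⟩
      have := (hcon _ hh).2
      have e : (x ^ k)⁻¹ * (x ^ k * h * (x ^ k)⁻¹) * x ^ k = h := by group
      rwa [e] at this
    obtain ⟨y, hy, h3 | h3⟩ := h2
    · have h4 := ih _ (hTK k y hy).1 h3
      have h5 : π (x ^ k) ξ ∈ CptS π (T.map (MulAut.conj (x ^ k)).toMonoidHom) := by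
        refine CptS_conj π (T := T) ?_ ((mem_PS π).1 hξ).1
        rintro _ ⟨t, ht, rfl⟩
        have e : (x ^ k)⁻¹ * (MulAut.conj (x ^ k)).toMonoidHom t * x ^ k = t := by
          show (x ^ k)⁻¹ * (x ^ k * t * (x ^ k)⁻¹) * x ^ k = t
          group
        rw [e]
        exact ht
      have h6 : x ^ k * y * (x ^ k)⁻¹ ∈ T.map (MulAut.conj (x ^ k)).toMonoidHom := ⟨y, hy, rfl⟩
      have h7 := orth_of_wm π h6 h5 h4
      rw [← inner_conj_symm, h7, map_zero]
    · have h4 := ih _ (hTK k y hy).2 h3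
      have h5 : π (x ^ k)⁻¹ ξ ∈ CptS π (T.map (MulAut.conj (x ^ k)⁻¹).toMonoidHom) := by
        refine CptS_conj π (T := T) ?_ ((mem_PS π).1 hξ).1
        rintro _ ⟨t, ht, rfl⟩
        have e : ((x ^ k)⁻¹)⁻¹ * (MulAut.conj (x ^ k)⁻¹).toMonoidHom t * (x ^ k)⁻¹ = t := by
          show ((x ^ k)⁻¹)⁻¹ * ((x ^ k)⁻¹ * t * ((x ^ k)⁻¹)⁻¹) * (x ^ k)⁻¹ = t
          group
        rw [e]
        exact ht
      have h6 : (x ^ k)⁻¹ * y * x ^ k ∈ T.map (MulAut.conj (x ^ k)⁻¹).toMonoidHom :=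
        ⟨y, hy, by
          show (x ^ k)⁻¹ * y * ((x ^ k)⁻¹)⁻¹ = _
          rw [inv_inv]⟩
      have h7 := orth_of_wm π h6 h5 h4
      rwa [inner_pi_left, inv_inv] at h7

theorem wm_all [Group.IsNilpotent G] {T : Subgroup G} {ξ : H} (hξ : ξ ∈ PS π T) {x : G}
    (hx : x ∉ T) : ξ ∈ (EV π x)ᗮ := by
  by_cases h0 : ξ = 0
  · rw [h0]; exact Submodule.zero_mem _
  obtain ⟨r, hr⟩ := exists_Kc_top T
  exact wm_Kc π hξ h0 r x (by
    have := Kc_le_succ T r
    rw [hr] at this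
    exact this (Subgroup.mem_top _)) hx

/-- the translates by elements outside of `N(T)` are orthogonal -/
theorem orth_of_notMem [Group.IsNilpotent G] {T : Subgroup G} {ξ : H} (hξ : ξ ∈ PS π T) {u : G}
    (hu : u ∉ Subgroup.normalizer (T : Set G)) : inner ℂ (π u ξ) ξ = 0 := by
  have h2 : ∃ y ∈ T, u * y * u⁻¹ ∉ T ∨ u⁻¹ * y * u ∉ T := by
    by_contra hcon
    push Not at hcon
    apply hu
    rw [Subgroup.mem_normalizer_iff]
    intro h
    refine ⟨fun hh => (hcon h hh).1, fun hh => ?_⟩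
    have := (hcon _ hh).2
    have e : u⁻¹ * (u * h * u⁻¹) * u = h := by group
    rwa [e] at this
  have key : ∀ v : G, (∃ y ∈ T, v * y * v⁻¹ ∉ T) → inner ℂ (π v ξ) ξ = 0 := by
    rintro v ⟨y, hy, h3⟩
    have h5 : π v ξ ∈ CptS π (T.map (MulAut.conj v).toMonoidHom) := by
      refine CptS_conj π (T := T) ?_ ((mem_PS π).1 hξ).1
      rintro _ ⟨t, ht, rfl⟩
      have e : v⁻¹ * (MulAut.conj v).toMonoidHom t * v = t := by
        show v⁻¹ * (v * t * v⁻¹) * v = t
        group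
      rw [e]
      exact ht
    exact orth_of_wm π (⟨y, hy, rfl⟩ : v * y * v⁻¹ ∈ T.map (MulAut.conj v).toMonoidHom) h5
      (wm_all π hξ h3)
  obtain ⟨y, hy, h3 | h3⟩ := h2
  · exact key u ⟨y, hy, h3⟩
  · have h4 := key u⁻¹ ⟨y, hy, by rwa [inv_inv]⟩
    rw [inner_pi_left, inv_inv] at h4
    rw [← inner_conj_symm, h4, map_zero]

end Pool.Agent.P8H24.NU
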