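import Pool.Agent.P8H24.NU.Poly

/-!
# Polynomial sequences in virtually nilpotent groups
-/

set_option autoImplicit false

namespace Pool.Agent.P8H24.NU

open Pool.Agent.Helper28.LCN

variable {G : Type} [Group G]

/-- sequences which are polynomial in the normal subgroup `N` up to constants, along residue
classes -/
def VP (N : Subgroup G) (F : ℕ → G) : Prop :=
  ∃ q : ℕ, 0 < q ∧ ∀ r : ℕ, ∃ (p : ℤ → N) (c : G), IsPoly p ∧
    ∀ n : ℕ, F (q * n + r) = (p n : G) * c

theorem VP.const (N : Subgroup G) (c : G) : VP N fun _ => c :=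
  ⟨1, one_pos, fun _ => ⟨fun _ => 1, c, IsPoly.const 1, fun _ => by simp⟩⟩

theorem VP.dil {N : Subgroup G} [Group.IsNilpotent N] {F : ℕ → G} {q : ℕ}
    (h : ∀ r : ℕ, ∃ (p : ℤ → N) (c : G), IsPoly p ∧ ∀ n : ℕ, F (q * n + r) = (p n : G) * c) (s : ℕ) :
    ∀ r : ℕ, ∃ (p : ℤ → N) (c : G), IsPoly p ∧ ∀ n : ℕ, F (q * s * n + r) = (p n : G) * c := by
  intro r
  obtain ⟨p, c, hp, h1⟩ := h r
  refine ⟨fun n => p (s * n), c, hp.dilate s, fun n => ?_⟩
  rw [mul_assoc, h1]
  push_cast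
  rfl

theorem conj_poly {N : Subgroup G} [N.Normal] [Group.IsNilpotent N] {p : ℤ → N} (hp : IsPoly p)
    (c : G) : IsPoly fun n => MulAut.conjNormal c (p n) :=
  hp.map (MulEquiv.toMonoidHom (MulAut.conjNormal (H := N) c))

theorem sum_step {N : Subgroup G} [N.Normal] [Group.IsNilpotent N] {F h : ℕ → G}
    (hF : ∀ n, F (n + 1) = h n * F n) {q : ℕ} {p : ℕ → ℤ → N} {c : ℕ → G} (hp : ∀ r, IsPoly (p r))
    (hh : ∀ r n : ℕ, h (q * n + r) = (p r n : G) * c r) {C : ℕ → G} (hC0 : C 0 = 1)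
    (hC : ∀ s, C (s + 1) = c s * C s) (s : ℕ) :
    ∃ P : ℤ → N, IsPoly P ∧ ∀ n : ℕ, F (q * n + s) = (P n : G) * C s * F (q * n) := by
  induction s with
  | zero => exact ⟨fun _ => 1, IsPoly.const 1, fun n => by simp [hC0]⟩
  | succ s ih =>
    obtain ⟨P, hP, h1⟩ := ih
    refine ⟨fun n => p s n * MulAut.conjNormal (c s) (P n), (hp s).mul (conj_poly hP (c s)),
      fun n => ?_⟩
    rw [← add_assoc, hF, hh, h1, hC, Subgroup.coe_mul, MulAut.conjNormal_apply]
    group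

/-- **Summation in virtually nilpotent groups.** -/
theorem VP.sum {N : Subgroup G} [N.Normal] [Group.IsNilpotent N] [N.FiniteIndex] {F h : ℕ → G}
    (hF : ∀ n, F (n + 1) = h n * F n) (hh : VP N h) : VP N F := by
  obtain ⟨q, hq, h0⟩ := hh
  -- one step of length `q`
  have step : ∀ q : ℕ, (∀ r : ℕ, ∃ (p : ℤ → N) (c : G), IsPoly p ∧
      ∀ n : ℕ, h (q * n + r) = (p n : G) * c) → ∀ s : ℕ, ∃ (P : ℤ → N) (C : G), IsPoly P ∧
      ∀ n : ℕ, F (q * n + s) = (P n : G) * C * F (q * n) := by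
    intro q h0 s
    choose p c hp hc using h0
    let C : ℕ → G := fun s => Nat.rec 1 (fun s x => c s * x) s
    obtain ⟨P, hP, h1⟩ := sum_step hF hp hc (C := C) rfl (fun s => rfl) s
    exact ⟨P, C s, hP, h1⟩
  obtain ⟨P, C, hP, h1⟩ := step q h0 q
  -- steps of length `q * index`
  set F' : ℕ → G := fun n => F (q * n) with hF'
  have h2 : ∀ n, F' (n + 1) = ((P n : G) * C) * F' n := by
    intro n
    rw [hF']
    show F (q * (n + 1)) = _
    rw [mul_add, mul_one, h1]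
  set Q := N.index with hQ
  have hQ0 : 0 < Q := Nat.pos_of_ne_zero Subgroup.FiniteIndex.index_ne_zero
  obtain ⟨P', hP', h3⟩ := sum_step (N := N) (q := Q) h2 (p := fun r n => P (Q * n + r))
    (c := fun _ => C) (fun r => hP.affine Q r) (fun r n => by push_cast; rfl) (C := fun s => C ^ s)
    (pow_zero C) (fun s => pow_succ' C s) Q
  have hCQ : C ^ Q ∈ N := Subgroup.pow_index_mem N C
  obtain ⟨R, hR0, hR⟩ := exists_psum (fun n => P' n * ⟨C ^ Q, hCQ⟩ : ℤ → N)
  have hRp : IsPoly R := isPoly_of_dd hR (hP'.mul (IsPoly.const _))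
  have h4 : ∀ n : ℕ, F (q * Q * n) = (R n : G) * F 0 := by
    intro n
    induction n with
    | zero => rw [mul_zero, Nat.cast_zero, hR0]; simp
    | succ n ih =>
      have h5 := h3 n
      rw [hF'] at h5
      simp only at h5
      rw [show q * Q * (n + 1) = q * (Q * n + Q) by ring, h5,
        show q * (Q * n) = q * Q * n by ring, ih]
      push_cast
      rw [hR]
      push_cast
      group
  refine ⟨q * Q, Nat.mul_pos hq hQ0, fun r => ?_⟩
  obtain ⟨P2, C2, hP2, h5⟩ := step (q * Q) (VP.dil h0 Q) r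
  refine ⟨fun n => P2 n * MulAut.conjNormal C2 (R n), C2 * F 0, hP2.mul (conj_poly hRp C2),
    fun n => ?_⟩
  rw [h5, h4, Subgroup.coe_mul, MulAut.conjNormal_apply]
  group

end Pool.Agent.P8H24.NU
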